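import Pool.Agent.U79.GZ.FIN8
import Pool.Agent.U358.GZ.DSCN

/-!
# Project GZ (helper79): all parts of the exact law
-/

set_option autoImplicit false

namespace Pool.Agent.U79.GZ

theorem t_Law : All3 := t_All3 Pool.Agent.U358.GZ.t_DSCN

end Pool.Agent.U79.GZ
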