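import Pool.Agent.U115.GE.Defs
import Pool.Agent.U115.GE.Sel
import Pool.Agent.U80.NP.Grp
import Pool.Agent.U80.NP.Dual

/-!
# Project GZ (helper79): the number of the classes is a power of two
-/

set_option autoImplicit false

open scoped Classical

namespace Pool.Agent.U79.GZ

open Pool.Agent.U115.GE (SelSet sel sel_dvd)

theorem dvd_of_sel {a b d : ℤ} (h : d ∈ SelSet a b) : d ∣ b := by
  have h1 : d.natAbs ∣ b.natAbs := by
    by_cases hb : b = 0
    · rw [hb]; exact dvd_zero _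
    rw [← Nat.prod_primeFactors_of_squarefree (Int.squarefree_natAbs.2 h.1)]
    refine Finset.prod_primes_dvd _ (fun p hp => (Nat.prime_of_mem_primeFactors hp).prime)
      fun p hp => ?_
    have h2 := sel_dvd h (Nat.prime_of_mem_primeFactors hp)
      (Int.natCast_dvd.2 (Nat.dvd_of_mem_primeFactors hp))
    exact Int.natCast_dvd.1 h2
  exact Int.natAbs_dvd_natAbs.1 h1

theorem qs_sel (a b : ℤ) : Pool.Agent.U80.NP.Qs a b = SelSet a b := by
  have key : ∀ (d : ℤ), Squarefree d → d ∣ b → ∀ (K : Type) [Field K] [CharZero K],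
      ((b / d : ℤ) : K) = (b : K) / (d : K) := by
    intro d hd hdb K _ _
    exact Int.cast_div hdb (by exact_mod_cast hd.ne_zero)
  ext d
  constructor
  · rintro ⟨h1, h2, h3, h4⟩
    rw [key d h1 h2 ℝ] at h3
    refine ⟨h1, h3, fun p hp => ?_⟩
    have h5 := h4 p
    rw [key d h1 h2 ℚ_[p]] at h5
    exact h5
  · intro h
    have h2 := dvd_of_sel h
    obtain ⟨h1, h3, h4⟩ := h
    refine ⟨h1, h2, ?_, fun p hp => ?_⟩
    · rw [key d h1 h2 ℝ]
      exact h3
    · have h5 := h4 p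
      rw [key d h1 h2 ℚ_[p]]
      exact h5

theorem sel_pow {a b : ℤ} (hb : b ≠ 0) : sel a b = 2 ^ Nat.log 2 (sel a b) := by
  have h1 : Pool.Agent.U80.NP.Qs a b = Pool.Agent.U80.NP.Sel a b := Pool.Agent.U80.NP.qs_eq a b
  have h2 := Pool.Agent.U80.NP.ncard_pow (a := a) hb
  unfold sel
  rw [← qs_sel, h1]
  exact h2

end Pool.Agent.U79.GZ
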