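import Pool.Agent.U79.GY.Stm
import Pool.Agent.U255.GY.DSC

/-!
# Project GZ (helper79): rank `0` for a positive proportion of ALL quadratic twists

`E : y² = x³ + a x² + b x`, `b`, `c = a² - 4 b` not squares. The class consists of ALL products `D` of
different primes not dividing `M` modulo which `b` and `c` are both squares (split) or both nonsquares
(inert), with `D` a square at all the bad places; if `b c` is a square, these are all squarefree `D`
prime to `M`, which are `1` modulo `8` and squares modulo the odd primes of `M`: a positive proportion of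
all integers. If the two Selmer groups of `E` itself have two elements, those of `E_D` have
`2 · #ker (M_D)` elements for the matrix `M_D` of the rows `p` (split primes of `D`)
`∑_q nr p q (x q + x p) + ∑_q γ p q x q + f p x p`, where `γ p q` is the symbol of `v(q)` modulo `p`, and
`q · v(q)` is in the local image at all bad places. The matrix is not symmetric, but
`M_pq + M_qp = s_p s_q + γ p q + γ q p`, and the rank of this is large; so the law is that of uniform random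
square matrices: the matrix is nonsingular for the proportion `∏ (1 - 2^{-i}) = 0.2887...`.
Statements of the parts.
-/

set_option autoImplicit false
set_option linter.unusedVariables false

open scoped Classical

namespace Pool.Agent.U79.GZ

open Finset hiding ext
open Filter
open Pool.Agent.Y703.CX (sm la jj XX eL zz kk S_SIE)
open Pool.Agent.Y703.CQ (nr sg prs HB S_EQ ext)
open Pool.Agent.U115.GD (S_MER S_CHE)
open Pool.Agent.U115.GE (sel Qs)
open Pool.Agent.U79.MO (SolA)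
open Pool.Agent.U79.GY (Cfg Ok Hc Sp In Cl SS da db dl s4 Mod cfg Ind S_HAL1 S_DEN S_CFG CntP S_BIL)
open Pool.Agent.U255.GY (ff)

/-! ### the limit and the linear algebra -/

/-- the limit `0.28878...` -/
noncomputable def eta : ℝ := ∏' i : ℕ, (1 - (1 / 2 : ℝ) ^ (i + 1))

/-- `1 / ∏_{1 ≤ i ≤ k} (2 ^ i - 1)` -/
noncomputable def ak (k : ℕ) : ℝ := ∏ i ∈ range k, (1 / ((2 : ℝ) ^ (i + 1) - 1))

/-- GZ-LIM: Euler's identity, with the error term of an alternating series. -/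
def S_LIM : Prop := (∀ K : ℕ, |∑ k ∈ range (K + 1), (-1 : ℝ) ^ k * ak k - eta| ≤ (1 / 2 : ℝ) ^ K) ∧
  0.2887 < eta ∧ eta < 0.2888

/-- the number of the linearly independent `k`-tuples in a space with `N` elements -/
noncomputable def Ik (k : ℕ) (N : ℝ) : ℝ := ∏ i ∈ range k, (N - 2 ^ i)

/-- GZ-BON: the Bonferroni inequalities for subspaces (the partial sums are, for `n ≥ 1`,
`(-1) ^ K` times `2 ^ (K (K + 1) / 2)` times the Gaussian binomial coefficient `[n - 1, K]`). -/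
def S_BON : Prop := ∀ n K : ℕ,
  |(if n = 0 then (1 : ℝ) else 0) - ∑ k ∈ range (K + 1), (-1 : ℝ) ^ k * (ak k * Ik k (2 ^ n))| ≤
    ak (K + 1) * Ik (K + 1) (2 ^ n)

/-- the number of the solutions of the block system -/
noncomputable def ns {U J : Type} [Fintype U] [Fintype J] (U1 : Finset U) (J1 : Finset J)
    (A : U → U → ZMod 2) (B : U → J → ZMod 2) (C : J → U → ZMod 2) (R : J → J → ZMod 2)
    (f : U → ZMod 2) (g : J → ZMod 2) : ℕ :=
  (univ.filter fun z : (U → ZMod 2) × (J → ZMod 2) => SolA U1 J1 A B C R f g z).card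

/-- the hypotheses on the fixed part: a free diagonal, the labels are not degenerate, and the
antisymmetric part of the fixed matrix `e` has a kernel of codimension at least `n - m` -/
def Hy {U J : Type} [Fintype U] [Fintype J] (U1 : Finset U) (J1 : Finset J)
    (B : U → J → ZMod 2) (C : J → U → ZMod 2) (e : J → J → ZMod 2) (m n : ℕ) : Prop :=
  (∃ l, l ∉ J1) ∧
  (∀ w : U → ZMod 2, (∀ u, u ∉ U1 → w u = 0) → (∃ u, w u ≠ 0) →
    ∃ k ∈ J1, ∑ u, w u * B u k ≠ 0) ∧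
  (∀ w : U → ZMod 2, (∀ u, u ∉ U1 → w u = 0) → (∃ u, w u ≠ 0) →
    ∃ k ∈ J1, ∑ u, w u * C k u ≠ 0) ∧
  (univ.filter fun y : J → ZMod 2 => (∀ k, k ∉ J1 → y k = 0) ∧
    ∀ k ∈ J1, ∑ l ∈ J1.erase k, (e k l + e l k) * y l = 0).card * 2 ^ n ≤ 2 ^ (J1.card + m)

/-- the error -/
noncomputable def dd (u j m n : ℕ) : ℝ := 2 ^ u / 2 ^ j + 4 ^ u * 2 ^ m / 2 ^ n

/-- GZ-IK: the mean number of the independent `k`-tuples of solutions is nearly `1`. Let
`Z₀` be the space of the `(x, y)` satisfying the rows of `U1` (it has `2 ^ |J1|` elements, as the rows of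
`B` are independent). For `z_i = (x_i, y_i)` in `Z₀`, `i = 1, …, k`, with independent `y_i` the
probability that all are solutions is `2 ^ (k (k - 1) / 2 - k |J1|)` if `Φ (z_i, z_j) = 0` for all
`i < j`, and `0` otherwise, `Φ (z, z') = y'ᵀ ω y + y'ᵀ C x + yᵀ C x'`, `ω k l = e k l + e l k` for `k ≠ l`, `0` for
`k = l` (the random symmetric matrix with uniform diagonal maps independent `y_i` uniformly to the tuples
with this symmetry). The number of the tuples in `Z₀` with all `Φ = 0` is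
`2 ^ (-k (k - 1) / 2) ∑_M ∑_z (-1) ^ (∑ M_ij Φ (z_i, z_j))`, the term of `M = 0` is the main term, the
others are at most `q` times it, `q = |rad Φ| / |Z₀| ≤ 4 ^ |U1| · |ker ω| / 2 ^ |J1|`. There are at most
`2 ^ k · 2 ^ ((k - 1) |J1| + |U1|)` tuples in `Z₀` with dependent `y_i`, and independent solutions have
independent `y_i` (`C` is injective). -/
def S_IK : Prop := ∀ (k m n : ℕ) (U J : Type) [Fintype U] [Fintype J] [LinearOrder J]
    (U1 : Finset U) (J1 : Finset J) (A : U → U → ZMod 2) (B : U → J → ZMod 2)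
    (C : J → U → ZMod 2) (e : J → J → ZMod 2) (f : U → ZMod 2) (g : J → ZMod 2),
  Hy U1 J1 B C e m n →
  |(∑ α : prs J1 → ZMod 2, Ik k (ns U1 J1 A B C (fun j l => ext α j l + e j l) f g : ℝ)) /
      2 ^ (prs J1).card - 1| ≤ 2 ^ (k ^ 2 + 1) * dd (Fintype.card U) J1.card m n

/-- the bound for the error -/
noncomputable def er (K u j m n : ℕ) : ℝ := 4 * (1 / 2 : ℝ) ^ K + 2 ^ ((K + 2) ^ 2 + 2) * dd u j m n

/-- the law of the random completion -/
def S_LA : Prop := ∀ (K m n : ℕ) (U J : Type) [Fintype U] [Fintype J] [LinearOrder J]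
    (U1 : Finset U) (J1 : Finset J) (A : U → U → ZMod 2) (B : U → J → ZMod 2)
    (C : J → U → ZMod 2) (e : J → J → ZMod 2) (f : U → ZMod 2) (g : J → ZMod 2),
  Hy U1 J1 B C e m n →
  |((univ.filter fun α : prs J1 → ZMod 2 =>
      ns U1 J1 A B C (fun j l => ext α j l + e j l) f g = 1).card : ℝ) / 2 ^ (prs J1).card - eta| ≤
    er K (Fintype.card U) J1.card m n

/-- GZ-LAW: the number of solutions is a power of two; Bonferroni. -/
def S_LAW : Prop := S_LIM → S_BON → S_IK → S_LA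

/-! ### the class -/

/-- the symbol of an integer modulo a prime -/
noncomputable def nz (p : ℕ) (z : ℤ) : ZMod 2 := if IsSquare (z : ZMod p) then 0 else 1

/-- the rows -/
def Sol (G : Cfg) (γ : ℕ → ℕ → ZMod 2) (f : ℕ → ZMod 2) (S : Finset ℕ) (x : ℕ → ZMod 2) : Prop :=
  ∀ p ∈ S, Hc G p → ∑ q ∈ S, nr p q * (x q + x p) + ∑ q ∈ S, γ p q * x q + f p * x p = 0

/-- the matrix is nonsingular -/
def Gd (G : Cfg) (γ : ℕ → ℕ → ZMod 2) (f : ℕ → ZMod 2) (S : Finset ℕ) : Prop :=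
  ∀ x : ℕ → ZMod 2, (∀ p, ¬ (p ∈ S ∧ Hc G p) → x p = 0) → Sol G γ f S x → ∀ p, x p = 0

/-- the conditions on the correction `γ` and on the set `Z` of integers: sums of rows and columns
are symbols of elements of `Z` -/
structure Ga (G : Cfg) (γ : ℕ → ℕ → ZMod 2) (Z : Finset ℤ) : Prop where
  per : ∀ p p' q q' : ℕ, Sp G p → Sp G p' → Sp G q → Sp G q' → p % G.Q = p' % G.Q →
    q % G.Q = q' % G.Q → γ p q = γ p' q'
  perz : ∀ z ∈ Z, ∀ p p' : ℕ, Sp G p → Sp G p' → p % G.Q = p' % G.Q → nz p z = nz p' z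
  col : ∀ T : Finset ℕ, (∀ u ∈ T, Sp G u) → ∃ z ∈ Z, ∀ p, Sp G p → ∑ u ∈ T, γ p u = nz p z
  row : ∀ T : Finset ℕ, (∀ u ∈ T, Sp G u) → ∃ z ∈ Z, ∀ p, Sp G p →
    ∑ u ∈ T, (γ u p + s4 p * s4 u) = nz p z

/-- the labels of the large split primes with respect to the small ones are not degenerate, also
after multiplication by the elements of `Z` -/
def Nd (G : Cfg) (Z : Finset ℤ) (S₀ S₁ : Finset ℕ) : Prop :=
  ∀ w : ℕ → ZMod 2, (∃ u ∈ S₀, Hc G u ∧ w u ≠ 0) → ∀ z ∈ Z,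
    ∃ p ∈ S₁, Hc G p ∧ ∑ u ∈ S₀.filter (fun u => Hc G u), w u * nr p u + nz p z ≠ 0

/-- GZ-BOX: the count in a box (templates `Pool/Agent/U56/GY/BOX.lean` for the reduction to the block
system with the correction `e`, and `Pool/Agent/U439/GD/*.lean` for the law instead of the moments).
In the block system `Σ_q γ p q x q` is written as `Σ_q γ p q (x q + x p) + (Σ_q γ p q) x p`, so
`R k l = nr + γ`, `e k l = γ k l + (s_k s_l` if the free symbol is the other one`)`. `Hy` holds with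
`m = Q`, `n` the number of the `i ∈ J1` with `ρ i = 3` modulo `4`: `e k l + e l k + δ_kl s_k` depends only on the
residues, so a `y` in the kernel is determined by its sums over the residue classes and by the `y k` with
`s_k = 0`. The nondegeneracy of `B`, `C` follows from `Nd` by `Ga.row`, `Ga.col`. -/
def S_BOX : Prop := S_EQ → S_LA → ∀ (G : Cfg) (γ : ℕ → ℕ → ZMod 2) (Z : Finset ℤ)
  (f : ℕ → ZMod 2) (K : ℕ) (ι : Type) [Fintype ι] [LinearOrder ι] (J1 : Finset ι)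
  (C : ι → Finset ℕ) (X : ι → ℕ) (κ : ℝ) (S₀ : Finset ℕ) (ρ : ι → ℕ), Ok G → Ga G γ Z →
  0 ≤ κ → (∀ i, (C i).card ≤ X i) → HB J1 C X κ → (∀ u ∈ S₀, u.Prime ∧ u ≠ 2) →
  (∀ i, ∀ p ∈ C i, p.Prime ∧ p ≠ 2 ∧ p ∉ S₀ ∧ (i ∈ J1 ↔ Hc G p) ∧ p % G.Q = ρ i) →
  (∀ i l, i ≠ l → Disjoint (C i) (C l)) → (∃ i, i ∉ J1) →
  |(((Fintype.piFinset C).filter fun p => Nd G Z S₀ (univ.image p) ∧
      Gd G γ f (S₀ ∪ univ.image p)).card : ℝ) -
      eta * (((Fintype.piFinset C).filter fun p => Nd G Z S₀ (univ.image p)).card : ℝ)| ≤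
    er K S₀.card J1.card G.Q (J1.filter fun i => ρ i % 4 = 3).card *
      (((Fintype.piFinset C).filter fun p => Nd G Z S₀ (univ.image p)).card : ℝ) +
    2 ^ ((2 * S₀.card + 1) * Fintype.card ι + (prs J1).card) * (κ * ∏ j, (X j : ℝ))

/-- the sets with a condition on the residue of the product -/
noncomputable def SP (G : Cfg) (R : Finset ℕ) (X : ℕ) : Finset (Finset ℕ) :=
  (SS G X).filter fun S => (∏ p ∈ S, p) % G.Q ∈ R

/-- the regular sets -/
noncomputable def RR (G : Cfg) (R : Finset ℕ) (X z H k V : ℕ) : Finset (Finset ℕ) :=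
  (SP G R X).filter fun S => Set.InjOn (jj H) (la z S : Set ℕ) ∧ S.card ≤ k ∧
    (∏ p ∈ sm z S, p) * ∏ p ∈ la z S, XX H (jj H p) ≤ X ∧
    2 * (sm z S).card + V < ((la z S).filter fun p => Hc G p ∧ p % 4 = 3).card ∧
    ∃ p ∈ la z S, ¬ Hc G p

/-- the sum over the boxes -/
def KEYC : Prop := ∃ C : ℝ, 1 ≤ C ∧
  ∀ (G : Cfg) (γ : ℕ → ℕ → ZMod 2) (Z : Finset ℤ) (f : ℕ → ZMod 2) (R : Finset ℕ)
    (K X z H k V N : ℕ) (κ : ℝ), Ok G → Ga G γ Z → 1 ≤ X → 1 ≤ H → 1 ≤ z → 0 ≤ κ →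
  C ≤ κ ^ 12 * z → (H : ℝ) * Real.log X < N →
  |(((RR G R X z H k V).filter fun S => Nd G Z (sm z S) (la z S) ∧ Gd G γ f S).card : ℝ) -
      eta * (((RR G R X z H k V).filter fun S => Nd G Z (sm z S) (la z S)).card : ℝ)| ≤
    (4 * (1 / 2 : ℝ) ^ K + 2 ^ ((K + 2) ^ 2 + 2) * ((1 + 2 ^ G.Q) * (1 / 2 : ℝ) ^ V)) *
      ((RR G R X z H k V).card : ℝ) +
    (((G.Q : ℝ) + 1) * (N + 1)) ^ k * (3 ^ (3 * k ^ 2) * κ) * (X * (1 + Real.log X))

/-- GZ-KEY (templates `Pool/Agent/U295/GD/KEY.lean` (law, product condition) and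
`Pool/Agent/U395/GY/KEY.lean` (the class `SS`, residues modulo `4`)): the boxes are labelled by the
number of the block and the residue modulo `Q`, so the product condition is constant on the boxes. -/
def S_KEY : Prop := S_BIL → S_EQ → S_LA → S_BOX → KEYC

/-- GZ-FEW: few sets have few large split primes `3` modulo `4` (template `Pool/Agent/U998/GD/FEW.lean`,
part1, and `Pool/Agent/U780/GY/FEW.lean`). -/
def S_FEW : Prop := S_SIE → S_MER → ∀ (G : Cfg) (V : ℕ), Ok G → (∃ r ∈ G.A, r % 4 = 3) →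
  ∃ (δ C : ℝ) (X₀ : ℕ), 0 < δ ∧ ∀ X : ℕ, X₀ ≤ X →
  (((SS G X).filter fun S => ((la (zz X) S).filter fun p => Hc G p ∧ p % 4 = 3).card ≤
      2 * (sm (zz X) S).card + V).card : ℝ) ≤ C * X * (Real.log X) ^ (-1 + dl G - δ : ℝ)

/-- the sets of split primes on which `z` times the product of the primes in `W` is a square -/
noncomputable def HD (G : Cfg) (W : Finset ℕ) (z : ℤ) (T : ℕ) : Finset (Finset ℕ) :=
  (range (T + 1)).powerset.filter fun S =>
    (∀ p ∈ S, Sp G p ∧ p ∉ W ∧ ∑ u ∈ W, nr p u + nz p z = 0) ∧ ∏ p ∈ S, p ≤ T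

/-- the bound for the logarithmic density of these sets -/
def HALP (G : Cfg) (Z : Finset ℤ) : Prop := ∃ C : ℝ, 1 ≤ C ∧ ∀ (W : Finset ℕ) (z : ℤ) (T : ℕ),
  z ∈ Z → W.Nonempty → (∀ u ∈ W, u.Prime ∧ Hc G u) → 2 ≤ T →
  ∑ S ∈ HD G W z T, (1 : ℝ) / ((∏ p ∈ S, p : ℕ) : ℝ) ≤
    C * (Real.log ((∏ u ∈ W, u : ℕ) : ℝ)) ^ (1 / 2 : ℝ) * (Real.log T) ^ (da G / 2 : ℝ)

/-- GZ-BAD: few sets have degenerate labels (template `Pool/Agent/U395/GY/BAD.lean`: the two values of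
`ε` are replaced by the elements of the finite set `Z`). -/
def S_BAD : Prop := S_SIE → S_MER → ∀ (G : Cfg) (Z : Finset ℤ), Ok G → HALP G Z →
  ∃ (δ C : ℝ) (X₀ : ℕ), 0 < δ ∧ ∀ X : ℕ, X₀ ≤ X →
  (((SS G X).filter fun S => S.card ≤ kk X ∧ ¬ Nd G Z (sm (zz X) S) (la (zz X) S)).card : ℝ) ≤
    C * X * (Real.log X) ^ (-1 + dl G - δ : ℝ)

/-- GZ-LOW: the lower bound for the size of the class with a condition on the product (template
`Pool/Agent/U2/GD/LOW.lean`; the product of the constructed set is a square modulo `Q`). -/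
def S_LOW : Prop := S_MER → S_CHE → ∀ (G : Cfg) (R : Finset ℕ), Ok G →
  (∀ n : ℕ, Nat.Coprime n G.Q → (n * n) % G.Q ∈ R) →
  ∃ (c : ℝ) (X₀ : ℕ), 0 < c ∧ ∀ X : ℕ, X₀ ≤ X →
  c * X * (Real.log X) ^ (-1 + dl G : ℝ) ≤ ((SP G R X).card : ℝ)

/-- GZ-ASY: the asymptotic analysis (template: the proof of `S_ASY` of project GD, see
`Pool/Agent/U115/GD` and `Pool/Agent/U439/GD`, and `Pool/Agent/U464/GY/ASY.lean`): for `ε > 0` choose
first `K`, then `V`. -/
def S_ASY : Prop := KEYC → CntP → S_SIE → S_BAD → S_FEW → Pool.Agent.U79.GY.S_FEW → S_MER →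
  S_CHE → S_LOW → ∀ (G : Cfg) (γ : ℕ → ℕ → ZMod 2) (Z : Finset ℤ) (f : ℕ → ZMod 2)
    (R : Finset ℕ), Ok G → Ga G γ Z → HALP G Z → (∃ r ∈ G.A, r % 4 = 3) →
  (∀ n : ℕ, Nat.Coprime n G.Q → (n * n) % G.Q ∈ R) →
  Tendsto (fun X : ℕ => (((SP G R X).filter fun S => Gd G γ f S).card : ℝ) /
    ((SP G R X).card : ℝ)) atTop (nhds eta)

/-- the integers composed of the primes of `M`, up to squares -/
noncomputable def ZZ (M : ℕ) : Finset ℤ :=
  ({1, -1} : Finset ℤ) ×ˢ M.primeFactors.powerset |>.image fun t => t.1 * ((∏ l ∈ t.2, l : ℕ) : ℤ)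

/-- GZ-HALZ (template `Pool/Agent/U141/GY/HAL2.lean`, `(-1) ^ ε` is replaced by `z ∈ ZZ M`). -/
def S_HALZ : Prop := S_HAL1 → S_DEN → S_CFG → ∀ (b c : ℤ) (M : ℕ), Mod b c M → ¬ IsSquare b →
  ¬ IsSquare c → HALP (cfg b c M) (ZZ M)

/-! ### arithmetic -/

/-- the generators `-1` and the primes of `M` -/
noncomputable def Gn (M : ℕ) : Finset ℤ := insert (-1) (M.primeFactors.image fun l => (l : ℤ))

/-- the number which brings `q` into the local images: the product of the generators `g` such that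
`w g` is not a square modulo `q` -/
noncomputable def vv (M : ℕ) (w : ℤ → ℤ) (q : ℕ) : ℤ :=
  ∏ g ∈ Gn M, if IsSquare (w g : ZMod q) then 1 else g

/-- the correction: `γ p q` is the symbol of `v(q)` modulo `p` -/
noncomputable def gm (M : ℕ) (w : ℤ → ℤ) (p q : ℕ) : ZMod 2 :=
  ∑ g ∈ Gn M, nz p g * nz q (w g)

/-- everywhere locally solvable at the bad places -/
def LS (a b : ℤ) (M : ℕ) (d : ℤ) : Prop :=
  Qs ℝ a b d ∧ ∀ (l : ℕ) [Fact l.Prime], l ∣ M → Qs ℚ_[l] a b d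

/-- the hypotheses on the curve -/
structure Dat (a b : ℤ) (M : ℕ) (w : ℤ → ℤ) : Prop where
  hM : Mod b (a ^ 2 - 4 * b) M
  nb : ¬ IsSquare b
  nc : ¬ IsSquare (a ^ 2 - 4 * b)
  s1 : sel a b = 2
  s2 : sel (-2 * a) (a ^ 2 - 4 * b) = 2
  hw : ∀ g ∈ Gn M, w g ∈ ZZ M
  hL : ∀ q : ℕ, Sp (cfg b (a ^ 2 - 4 * b) M) q → LS a b M (q * vv M w q)

/-- the numbers which are squares at the bad places -/
def Pr (M D : ℕ) : Prop := D % 8 = 1 ∧ ∀ l : ℕ, l.Prime → l ≠ 2 → l ∣ M → jacobiSym D l = 1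

/-- the residues of these numbers -/
noncomputable def Rs (M : ℕ) : Finset ℕ := (range (4 * M)).filter fun r => Pr M r

/-- GZ-GAM: the correction has the required properties (`nz` is multiplicative on integers which are
not zero modulo `p`; `nz p z` depends only on `p` modulo `4 M`: `jacobiSym.mod_right`); the residues. -/
def S_GAM : Prop := S_CFG → ∀ (b c : ℤ) (M : ℕ) (w : ℤ → ℤ), Mod b c M → ¬ IsSquare b →
  ¬ IsSquare c → (∀ g ∈ Gn M, w g ∈ ZZ M) → Ga (cfg b c M) (gm M w) (ZZ M) ∧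
  (∀ n : ℕ, Nat.Coprime n (cfg b c M).Q → (n * n) % (cfg b c M).Q ∈ Rs M) ∧
  (∀ n : ℕ, n % (cfg b c M).Q ∈ Rs M ↔ Pr M n) ∧
  (IsSquare (b * c) → dl (cfg b c M) = 1) ∧
  (¬ IsSquare (-b) → ¬ IsSquare (-c) → ¬ IsSquare (-(b * c)) → ∃ r ∈ (cfg b c M).A, r % 4 = 3)

/-- GZ-DSC1: the first Selmer group. Let `d = u ∏ T` be in it, `x` the indicator of `T`. The rows are
`Σ nr p q (x q + x p) + f p x p = nz p u` (`Pool/Agent/U255/GY/DSC.lean`, theorem `row`). As `D` is a square at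
the bad places, `LS a b M d`; by `Dat.hL` and the group property
(`Pool/Agent/U80/NP/Grp.lean`, `locA_mul`) `u ∏_{q ∈ T} v(q)` is in the local images, so its squarefree
part is in the Selmer group of `E`, i.e. `1` or the squarefree part of `b`; so `nz p u = Σ_{q ∈ T} γ p q`. -/
def S_DSC1 : Prop := S_CFG → ∀ (a b : ℤ) (M : ℕ) (w : ℤ → ℤ), Dat a b M w → ∀ S : Finset ℕ,
  Cl (cfg b (a ^ 2 - 4 * b) M) S → Pr M (∏ p ∈ S, p) →
  Gd (cfg b (a ^ 2 - 4 * b) M) (gm M w) (ff a b) S →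
  sel (a * ((∏ p ∈ S, p : ℕ) : ℤ)) (b * ((∏ p ∈ S, p : ℕ) : ℤ) ^ 2) ≤ 2

/-- the Hilbert symbol at an odd prime -/
noncomputable def hp (p : ℕ) (x y : ℤ) : ZMod 2 :=
  (padicValInt p x : ZMod 2) * (padicValInt p y : ZMod 2) * s4 p +
    (padicValInt p y : ZMod 2) * nz p (x / (p : ℤ) ^ padicValInt p x) +
    (padicValInt p x : ZMod 2) * nz p (y / (p : ℤ) ^ padicValInt p y)

/-- `(u - 1) / 2` for odd `u` -/
def e2 (u : ℤ) : ZMod 2 := if u % 4 = 3 then 1 else 0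

/-- `(u² - 1) / 8` for odd `u` -/
def w2 (u : ℤ) : ZMod 2 := if u % 8 = 3 ∨ u % 8 = 5 then 1 else 0

/-- the Hilbert symbol at `2` -/
noncomputable def h2 (x y : ℤ) : ZMod 2 :=
  e2 (x / 2 ^ padicValInt 2 x) * e2 (y / 2 ^ padicValInt 2 y) +
    (padicValInt 2 x : ZMod 2) * w2 (y / 2 ^ padicValInt 2 y) +
    (padicValInt 2 y : ZMod 2) * w2 (x / 2 ^ padicValInt 2 x)

/-- the Hilbert symbol at the real place -/
def hr (x y : ℤ) : ZMod 2 := if x < 0 ∧ y < 0 then 1 else 0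

/-- GZ-REC: the product formula (bimultiplicative; check `-1`, `2`, odd primes, quadratic
reciprocity). -/
def S_REC : Prop := ∀ x y : ℤ, x ≠ 0 → y ≠ 0 →
  hr x y + h2 x y + ∑ p ∈ (x * y).natAbs.primeFactors.erase 2, hp p x y = 0

/-- GZ-NRM: norms have trivial symbols. -/
def S_NRM : Prop := ∀ x y : ℤ, x ≠ 0 → y ≠ 0 →
  ((∃ s t : ℝ, (y : ℝ) = s ^ 2 - x * t ^ 2) → hr x y = 0) ∧
  (∀ (p : ℕ) [Fact p.Prime], p ≠ 2 → (∃ s t : ℚ_[p], (y : ℚ_[p]) = s ^ 2 - x * t ^ 2) →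
    hp p x y = 0)

/-- GZ-NRM2: norms have trivial symbols, at the prime `2`. -/
def S_NRM2 : Prop := ∀ x y : ℤ, x ≠ 0 → y ≠ 0 →
  (∃ s t : ℚ_[2], (y : ℚ_[2]) = s ^ 2 - x * t ^ 2) → h2 x y = 0

/-- GZ-ISO: the local images are orthogonal. For `e ≠ 0 ≠ e'` put `x = d (M / e)²`, `x' = d' (M' / e')²`,
`x² + A x + B = d n²`, `x'² - 2 A x' + A² - 4 B = d' n'²`; then
`(x' - 2 x - A)² - 4 d n² = d' (n'² - 4 d (M / e)² (M' / e')²)`. -/
def S_ISO : Prop := ∀ (K : Type) [Field K] [CharZero K] (A B d d' : ℤ), B ≠ 0 →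
  A ^ 2 - 4 * B ≠ 0 → d ≠ 0 → d' ≠ 0 → Qs K A B d → Qs K (-2 * A) (A ^ 2 - 4 * B) d' →
  ∃ s t : K, (d' : K) = s ^ 2 - (d : K) * t ^ 2

/-- GZ-FF: the corrections of the two isogenies (`(√α + √β)² = - a ± 2 √b` for the roots `α`, `β`
of `x² + a x + b`). -/
def S_FF : Prop := ∀ (a b : ℤ) (p : ℕ), p.Prime → p ≠ 2 → (b : ZMod p) ≠ 0 →
  ((a ^ 2 - 4 * b : ℤ) : ZMod p) ≠ 0 → IsSquare (b : ZMod p) →
  IsSquare ((a ^ 2 - 4 * b : ℤ) : ZMod p) →
  ff (-2 * a) (a ^ 2 - 4 * b) p = ff a b p + s4 p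

/-- GZ-DSC2: the second Selmer group. Let `d' = u' ∏ T'` be in it, `x'` the indicator of `T'`. For a
split prime `q` of `D` put `q* = q v(q)`. The product formula for `(q*, d')`: the symbols at the bad
places vanish (`S_ISO`, `S_NRM`, `S_NRM2`, `Dat.hL`), the symbol at `p ∈ T'`, `p ≠ q`, is `nr p q + γ p q`, the
symbol at `q` is given by the row of `q` for the dual isogeny (`row` for `-2 a`, `c`, and `S_FF`):
altogether the column `q` of `x'ᵀ M_D` vanishes. As `M_D` is nonsingular, `T'` is empty and `d'` is in the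
Selmer group of the dual isogeny of `E`. -/
def S_DSC2 : Prop := S_CFG → S_REC → S_NRM → S_NRM2 → S_ISO → S_FF →
  ∀ (a b : ℤ) (M : ℕ) (w : ℤ → ℤ), Dat a b M w → ∀ S : Finset ℕ,
  Cl (cfg b (a ^ 2 - 4 * b) M) S → Pr M (∏ p ∈ S, p) →
  Gd (cfg b (a ^ 2 - 4 * b) M) (gm M w) (ff a b) S →
  sel (-2 * (a * ((∏ p ∈ S, p : ℕ) : ℤ)))
    ((a ^ 2 - 4 * b) * ((∏ p ∈ S, p : ℕ) : ℤ) ^ 2) ≤ 2

/-- GZ-EX1: `y² = x³ - 4 x² + 2 x` (with `w = 1`). -/
def S_EX1 : Prop := Dat (-4) 2 8 (fun _ => 1)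

/-- GZ-EX2: `y² = x³ + 5 x² + 5 x` (with `w (-1) = -1`, `w g = 1` otherwise). -/
def S_EX2 : Prop := Dat 5 5 10 (fun g => if g = -1 then -1 else 1)

end Pool.Agent.U79.GZ
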