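import Pool.Agent.U79.GZ.Stm
import Pool.Agent.U79.GY.FIN2
import Pool.Agent.U115.GE.Fin

/-!
# Project GZ (helper79): assembly
-/

set_option autoImplicit false

open scoped Classical

namespace Pool.Agent.U79.GZ

open Finset hiding ext
open Filter
open Pool.Agent.Y703.CX (S_SIE)
open Pool.Agent.Y703.CQ (S_EQ)
open Pool.Agent.U115.GD (S_MER S_CHE)
open Pool.Agent.U115.GE (sel)
open Pool.Agent.U115.XP (fin_wc pow_tors)
open Pool.Agent.Y682 (gc wc)
open Pool.Agent.TH841.NF.D (rk Sha)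
open Pool.Agent.U79.TF (sel2 gc_ne)
open Pool.Agent.U79.GY (Cfg Ok Hc Sp In Cl SS da db dl s4 Mod cfg Ind S_HAL1 S_DEN S_CFG CntP S_BIL
  sq_both not_dvd_cast prod_tw)
open Pool.Agent.U255.GY (ff)

/-! ### two small Selmer groups -/

theorem triv_of_sel {A B : ℤ} (hB : B ≠ 0) (hC : A ^ 2 - 4 * B ≠ 0) (h1 : sel A B ≤ 2)
    (h2 : sel (-2 * A) (A ^ 2 - 4 * B) ≤ 2) :
    sel A B = 2 ∧ sel (-2 * A) (A ^ 2 - 4 * B) = 2 ∧ rk (gc A B ℚ) = 0 ∧
    Finite (gc A B ℚ).toAffine.Point ∧ ∀ (n : ℕ) (x : Sha (gc A B ℚ)), 2 ^ n • x = 0 → x = 0 := by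
  have h4 : 4 ≤ sel A B * sel (-2 * A) (A ^ 2 - 4 * B) := Pool.Agent.U79.TF.sel2_ge hB hC
  have e1 : sel A B = 2 := by
    by_contra h
    have : sel A B ≤ 1 := by omega
    nlinarith
  have e2 : sel (-2 * A) (A ^ 2 - 4 * B) = 2 := by
    by_contra h
    have : sel (-2 * A) (A ^ 2 - 4 * B) ≤ 1 := by omega
    nlinarith
  obtain ⟨hfin, hb⟩ := Pool.Agent.U796.GE.t_BND A B hB hC
  have e : gc A B ℚ = wc (A : ℚ) (B : ℚ) := rfl
  rw [← e, e1, e2] at hb
  rw [← e] at hfin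
  have hX0 : 0 < Nat.card {x : Sha (gc A B ℚ) // 2 • x = 0} :=
    Nat.card_pos_iff.2 ⟨⟨⟨0, smul_zero 2⟩⟩, hfin⟩
  set X := Nat.card {x : Sha (gc A B ℚ) // 2 • x = 0} with hX
  set r := rk (gc A B ℚ) with hr
  have h2r : 0 < 2 ^ r := by positivity
  have hX1 : X = 1 := by nlinarith
  have hr0 : r = 0 := by
    by_contra h0
    have : 2 ≤ 2 ^ r := by
      calc 2 = 2 ^ 1 := by norm_num
        _ ≤ 2 ^ r := Nat.pow_le_pow_right (by norm_num) (by omega)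
    nlinarith
  have hb0 : (B : ℚ) ≠ 0 := by exact_mod_cast hB
  have hc0 : (A : ℚ) ^ 2 - 4 * (B : ℚ) ≠ 0 := by exact_mod_cast hC
  refine ⟨e1, e2, hr0, ?_, pow_tors fun y hy => ?_⟩
  · rw [hr, e] at hr0
    rw [e]
    exact (fin_wc ℚ _ _ hb0 hc0).1 hr0
  · have h4 := (Nat.card_eq_one_iff_unique.1 hX1).1
    exact congrArg Subtype.val (h4.elim ⟨y, hy⟩ ⟨0, smul_zero 2⟩)

/-! ### the class -/

/-- the class of the integers `D` -/
def Cla (b c : ℤ) (M D : ℕ) : Prop := Squarefree D ∧ Pr M D ∧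
  ∀ p : ℕ, p.Prime → p ∣ D → IsSquare ((b * c : ℤ) : ZMod p)

/-- the members up to `X` -/
noncomputable def CZ (b c : ℤ) (M X : ℕ) : Finset ℕ := (Icc 1 X).filter fun D => Cla b c M D

/-- a number with `Pr` is prime to `M` -/
theorem pr_cop {M D : ℕ} (h : Pr M D) {p : ℕ} (hp : p.Prime) (hd : p ∣ D) : ¬ p ∣ M := by
  intro hM
  by_cases h2 : p = 2
  · subst h2
    have := h.1
    omega
  · have := Fact.mk hp
    have h3 := h.2 p hp h2 hM
    rw [← jacobiSym.legendreSym.to_jacobiSym, (legendreSym.eq_zero_iff p (D : ℤ)).2 ?_] at h3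
    · exact zero_ne_one h3
    · rw [Int.cast_natCast, ZMod.natCast_eq_zero_iff]
      exact hd

variable {b c : ℤ} {M : ℕ}

theorem cl_of (hCfg : S_CFG) (hMod : Mod b c M) (nb : ¬ IsSquare b) (nc : ¬ IsSquare c) {D : ℕ}
    (hD : Cla b c M D) : Cl (cfg b c M) D.primeFactors := by
  obtain ⟨-, hS, hI⟩ := hCfg b c M hMod nb nc
  intro p hp
  have hpp := Nat.prime_of_mem_primeFactors hp
  have hd := Nat.dvd_of_mem_primeFactors hp
  have := Fact.mk hpp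
  have h2 := pr_cop hD.2.1 hpp hd
  have h4 := hD.2.2 p hpp hd
  rw [Int.cast_mul] at h4
  rcases sq_both (not_dvd_cast h2 hMod.hb) (not_dvd_cast h2 hMod.hc) h4 with h5 | h5
  · exact Or.inl ((hS p hpp).2 ⟨h2, h5⟩)
  · exact Or.inr ((hI p hpp).2 ⟨h2, h5⟩)

/-- the correspondence with the sets of primes -/
theorem count_eq (hCfg : S_CFG) (hGam : S_GAM) (hMod : Mod b c M) (nb : ¬ IsSquare b)
    (nc : ¬ IsSquare c) (X : ℕ) (P : Finset ℕ → Prop) :
    ((SP (cfg b c M) (Rs M) X).filter fun S => P S).card =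
      ((CZ b c M X).filter fun D => P D.primeFactors).card := by
  have h1 : (1 : ℤ) ∈ ZZ M := by
    unfold ZZ
    rw [mem_image]
    refine ⟨(1, ∅), mem_product.2 ⟨by simp, empty_mem_powerset _⟩, by simp⟩
  obtain ⟨-, -, hR, -, -⟩ := hGam hCfg b c M (fun _ => 1) hMod nb nc (fun _ _ => h1)
  have hpr : ∀ S, Cl (cfg b c M) S → ∀ p ∈ S, p.Prime := fun S hS p hp =>
    (hS p hp).elim (fun h => h.1) fun h => h.1
  symm
  refine card_bij (fun D _ => D.primeFactors) (fun D hD => ?_) (fun D hD E hE h => ?_) fun S hS => ?_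
  · obtain ⟨hD1, hD2⟩ := mem_filter.1 hD
    obtain ⟨hD3, hD4⟩ := mem_filter.1 hD1
    have hle := (mem_Icc.1 hD3).2
    have hprod : ∏ p ∈ D.primeFactors, p = D := Nat.prod_primeFactors_of_squarefree hD4.1
    refine mem_filter.2 ⟨mem_filter.2 ⟨mem_filter.2 ⟨mem_powerset.2 fun p hp => ?_,
      cl_of hCfg hMod nb nc hD4, ?_⟩, ?_⟩, hD2⟩
    · exact mem_range.2 (Nat.lt_succ_of_le ((Nat.le_of_mem_primeFactors hp).trans hle))
    · rw [hprod]
      exact hle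
    · rw [hprod]
      exact (hR D).2 hD4.2.1
  · have h2 := (mem_filter.1 (mem_filter.1 hD).1).2.1
    have h3 := (mem_filter.1 (mem_filter.1 hE).1).2.1
    have h' : D.primeFactors = E.primeFactors := h
    rw [← Nat.prod_primeFactors_of_squarefree h2, ← Nat.prod_primeFactors_of_squarefree h3, h']
  · obtain ⟨hS1, hS2⟩ := mem_filter.1 hS
    obtain ⟨hS3, hS4⟩ := mem_filter.1 hS1
    obtain ⟨-, hS5, hS6⟩ := mem_filter.1 hS3
    have hpf : (∏ p ∈ S, p).primeFactors = S := Nat.primeFactors_prod (hpr S hS5)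
    have htw := prod_tw hCfg hMod nb nc hS5
    have hsq : Squarefree (∏ p ∈ S, p) := Int.squarefree_natCast.1 htw.1
    refine ⟨∏ p ∈ S, p, ?_, hpf⟩
    refine mem_filter.2 ⟨mem_filter.2 ⟨mem_Icc.2 ⟨Nat.one_le_iff_ne_zero.2 hsq.ne_zero, hS6⟩,
      hsq, (hR _).1 hS4, fun p hp hd => htw.2 p hp (by exact_mod_cast hd)⟩, ?_⟩
    rw [hpf]
    exact hS2

end Pool.Agent.U79.GZ
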