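import Pool.Agent.U79.GZ.FIN1

/-!
# Project GZ (helper79): assembly, the density theorem
-/

set_option autoImplicit false

open scoped Classical

namespace Pool.Agent.U79.GZ

open Finset hiding ext
open Filter
open Pool.Agent.Y703.CX (S_SIE)
open Pool.Agent.Y703.CQ (S_EQ)
open Pool.Agent.U115.GD (S_MER S_CHE)
open Pool.Agent.U115.GE (sel)
open Pool.Agent.Y682 (gc wc)
open Pool.Agent.TH841.NF.D (rk Sha)
open Pool.Agent.U79.TF (sel2 gc_ne)
open Pool.Agent.U79.GY (Cfg Ok Hc Sp In Cl SS da db dl s4 Mod cfg Ind S_HAL1 S_DEN S_CFG CntP S_BIL)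
open Pool.Agent.U255.GY (ff)

/-- the parts without the arithmetic of the curves -/
structure Base : Prop where
  bil : S_BIL
  eq : S_EQ
  la : S_LA
  box : S_BOX
  key : S_KEY
  cnt : CntP
  sie : S_SIE
  bad : S_BAD
  few : S_FEW
  few' : Pool.Agent.U79.GY.S_FEW
  mer : S_MER
  che : S_CHE
  low : S_LOW
  asy : S_ASY
  hal1 : S_HAL1
  den : S_DEN
  cfg : S_CFG
  halz : S_HALZ
  gam : S_GAM

/-- all the parts -/
structure All : Prop extends Base where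
  rcp : S_REC
  nrm : S_NRM
  nrm2 : S_NRM2
  iso : S_ISO
  ff : S_FF
  dsc1 : S_DSC1
  dsc2 : S_DSC2

variable {a b : ℤ} {M : ℕ} {w : ℤ → ℤ}

/-- the exact proportion of the nonsingular matrices -/
theorem law (H : All) (hD : Dat a b M w) (h1 : ¬ IsSquare (-b)) (h2 : ¬ IsSquare (-(a ^ 2 - 4 * b)))
    (h3 : ¬ IsSquare (-(b * (a ^ 2 - 4 * b)))) :
    Tendsto (fun X : ℕ => (((CZ b (a ^ 2 - 4 * b) M X).filter fun D =>
      Gd (cfg b (a ^ 2 - 4 * b) M) (gm M w) (ff a b) D.primeFactors).card : ℝ) /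
      ((CZ b (a ^ 2 - 4 * b) M X).card : ℝ)) atTop (nhds eta) := by
  obtain ⟨hGa, hR1, -, -, hr⟩ := H.gam H.cfg b (a ^ 2 - 4 * b) M w hD.hM hD.nb hD.nc hD.hw
  have h := H.asy (H.key H.bil H.eq H.la H.box) H.cnt H.sie H.bad H.few H.few' H.mer H.che H.low
    (cfg b (a ^ 2 - 4 * b) M) (gm M w) (ZZ M) (ff a b) (Rs M)
    (H.cfg b (a ^ 2 - 4 * b) M hD.hM hD.nb hD.nc).1 hGa
    (H.halz H.hal1 H.den H.cfg b (a ^ 2 - 4 * b) M hD.hM hD.nb hD.nc) (hr h1 h2 h3) hR1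
  refine h.congr fun X => ?_
  have e1 := count_eq H.cfg H.gam hD.hM hD.nb hD.nc X fun S =>
    Gd (cfg b (a ^ 2 - 4 * b) M) (gm M w) (ff a b) S
  have e2 := count_eq H.cfg H.gam hD.hM hD.nb hD.nc X fun _ => True
  simp only [filter_true] at e2
  rw [← e1, ← e2]

/-- the twists with a nonsingular matrix -/
theorem good (H : All) (hDat : Dat a b M w) {D : ℕ} (hD : Cla b (a ^ 2 - 4 * b) M D)
    (hG : Gd (cfg b (a ^ 2 - 4 * b) M) (gm M w) (ff a b) D.primeFactors) :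
    sel (a * D) (b * D ^ 2) = 2 ∧
    sel (-2 * (a * D)) ((a * D) ^ 2 - 4 * (b * D ^ 2)) = 2 ∧ rk (gc (a * D) (b * D ^ 2) ℚ) = 0 ∧
    Finite (gc (a * D) (b * D ^ 2) ℚ).toAffine.Point ∧
    ∀ (n : ℕ) (x : Sha (gc (a * D) (b * D ^ 2) ℚ)), 2 ^ n • x = 0 → x = 0 := by
  have hb : b ≠ 0 := by
    rintro rfl
    exact hDat.nb ⟨0, by norm_num⟩
  have hc : a ^ 2 - 4 * b ≠ 0 := by
    intro h
    exact hDat.nc ⟨0, by rw [h]; norm_num⟩
  have hD0 : (D : ℤ) ≠ 0 := by exact_mod_cast hD.1.ne_zero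
  obtain ⟨g1, g2⟩ := gc_ne hb hc hD0
  have hcl := cl_of H.cfg hDat.hM hDat.nb hDat.nc hD
  have hprod : ∏ p ∈ D.primeFactors, p = D := Nat.prod_primeFactors_of_squarefree hD.1
  have k1 := H.dsc1 H.cfg a b M w hDat D.primeFactors hcl (by rw [hprod]; exact hD.2.1) hG
  have k2 := H.dsc2 H.cfg H.rcp H.nrm H.nrm2 H.iso H.ff a b M w hDat D.primeFactors hcl
    (by rw [hprod]; exact hD.2.1) hG
  rw [hprod] at k1 k2
  have e : (a ^ 2 - 4 * b) * (D : ℤ) ^ 2 = (a * D) ^ 2 - 4 * (b * D ^ 2) := by ring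
  rw [e] at k2
  exact triv_of_sel g1 g2 k1 k2

/-- the class is large if `b c` is a square -/
theorem many (H : All) (hD : Dat a b M w) (hbc : IsSquare (b * (a ^ 2 - 4 * b))) :
    ∃ (c : ℝ) (X₀ : ℕ), 0 < c ∧ ∀ X : ℕ, X₀ ≤ X →
      c * X ≤ ((CZ b (a ^ 2 - 4 * b) M X).card : ℝ) := by
  obtain ⟨-, hR1, -, hdl, -⟩ := H.gam H.cfg b (a ^ 2 - 4 * b) M w hD.hM hD.nb hD.nc hD.hw
  obtain ⟨c, X₀, hc, h⟩ := H.low H.mer H.che (cfg b (a ^ 2 - 4 * b) M) (Rs M)
    (H.cfg b (a ^ 2 - 4 * b) M hD.hM hD.nb hD.nc).1 hR1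
  refine ⟨c, X₀, hc, fun X hX => ?_⟩
  have h1 := h X hX
  rw [hdl hbc, show (-1 + 1 : ℝ) = 0 by norm_num, Real.rpow_zero, mul_one] at h1
  have e2 := count_eq H.cfg H.gam hD.hM hD.nb hD.nc X fun _ => True
  simp only [filter_true] at e2
  rwa [← e2]

/-- the class tends to infinity -/
theorem card_top (H : All) (hD : Dat a b M w) :
    Tendsto (fun X : ℕ => ((CZ b (a ^ 2 - 4 * b) M X).card : ℝ)) atTop atTop := by
  obtain ⟨-, hR1, -, -, -⟩ := H.gam H.cfg b (a ^ 2 - 4 * b) M w hD.hM hD.nb hD.nc hD.hw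
  have hO := (H.cfg b (a ^ 2 - 4 * b) M hD.hM hD.nb hD.nc).1
  obtain ⟨c, X₀, hc, h⟩ := H.low H.mer H.che (cfg b (a ^ 2 - 4 * b) M) (Rs M) hO hR1
  have hdl : 0 < dl (cfg b (a ^ 2 - 4 * b) M) := by
    unfold dl da db
    have h1 : 0 < (cfg b (a ^ 2 - 4 * b) M).A.card := card_pos.2 hO.hAn
    have h2 : 0 < Nat.totient (cfg b (a ^ 2 - 4 * b) M).Q := Nat.totient_pos.2 hO.q0
    have h1' : (0 : ℝ) < ((cfg b (a ^ 2 - 4 * b) M).A.card : ℝ) := by exact_mod_cast h1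
    have h2' : (0 : ℝ) < (Nat.totient (cfg b (a ^ 2 - 4 * b) M).Q : ℝ) := by exact_mod_cast h2
    positivity
  set d := dl (cfg b (a ^ 2 - 4 * b) M) with hd
  -- `X (log X) ^ (-1 + d) ≥ X / log X` and this tends to infinity
  have hlo : Tendsto (fun X : ℕ => c * ((X : ℝ) / Real.log X)) atTop atTop := by
    refine Tendsto.const_mul_atTop hc ?_
    have h1 : Tendsto (fun x : ℝ => x / Real.log x) atTop atTop := by
      have h2 : Tendsto (fun x : ℝ => Real.log x / x) atTop (nhds 0) := by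
        have := Real.isLittleO_log_id_atTop.tendsto_div_nhds_zero
        exact this
      have h3 : ∀ᶠ x : ℝ in atTop, 0 < Real.log x / x := by
        filter_upwards [eventually_gt_atTop (1 : ℝ)] with x hx
        exact div_pos (Real.log_pos hx) (by linarith)
      have h4 : Tendsto (fun x : ℝ => Real.log x / x) atTop (nhdsWithin 0 (Set.Ioi 0)) :=
        tendsto_nhdsWithin_iff.2 ⟨h2, h3⟩
      refine (tendsto_inv_nhdsGT_zero.comp h4).congr fun x => ?_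
      simp only [Function.comp_apply, inv_div]
    exact h1.comp tendsto_natCast_atTop_atTop
  refine tendsto_atTop_mono' atTop ?_ hlo
  filter_upwards [eventually_ge_atTop X₀, eventually_ge_atTop 3] with X hX hX3
  have e2 := count_eq H.cfg H.gam hD.hM hD.nb hD.nc X fun _ => True
  simp only [filter_true] at e2
  rw [← e2]
  refine le_trans ?_ (h X hX)
  have hX3' : (3 : ℝ) ≤ X := by exact_mod_cast hX3
  have hlog : 1 ≤ Real.log X := by
    rw [← Real.log_exp 1]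
    refine Real.log_le_log (Real.exp_pos 1) ?_
    linarith [Real.exp_one_lt_d9]
  have h5 : (Real.log X) ^ (-1 : ℝ) ≤ (Real.log X) ^ (-1 + d : ℝ) :=
    Real.rpow_le_rpow_of_exponent_le hlog (by linarith)
  rw [Real.rpow_neg_one] at h5
  have hXp : (0 : ℝ) < X := by linarith
  calc c * ((X : ℝ) / Real.log X) = c * X * (Real.log X)⁻¹ := by ring
    _ ≤ c * X * (Real.log X) ^ (-1 + d : ℝ) := mul_le_mul_of_nonneg_left h5 (by positivity)

/-- **a lower bound for the proportion of the twists with a property implied by the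
nonsingularity of the matrix** -/
theorem prop_ge (H : All) (hD : Dat a b M w) (h1 : ¬ IsSquare (-b))
    (h2 : ¬ IsSquare (-(a ^ 2 - 4 * b))) (h3 : ¬ IsSquare (-(b * (a ^ 2 - 4 * b))))
    {P : ℕ → Prop} (hP : ∀ D : ℕ, Cla b (a ^ 2 - 4 * b) M D →
      Gd (cfg b (a ^ 2 - 4 * b) M) (gm M w) (ff a b) D.primeFactors → P D) {ε : ℝ} (hε : 0 < ε) :
    ∃ X₀ : ℕ, ∀ X : ℕ, X₀ ≤ X → (eta - ε) * ((CZ b (a ^ 2 - 4 * b) M X).card : ℝ) ≤
      (((CZ b (a ^ 2 - 4 * b) M X).filter fun D => P D).card : ℝ) := by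
  have hl := law H hD h1 h2 h3
  have ht := card_top H hD
  obtain ⟨X₀, hX₀⟩ := eventually_atTop.1 ((hl.eventually (lt_mem_nhds (show eta - ε < eta by
    linarith))).and (ht.eventually (eventually_gt_atTop 0)))
  refine ⟨X₀, fun X hX => ?_⟩
  obtain ⟨k1, k2⟩ := hX₀ X hX
  rw [lt_div_iff₀ k2] at k1
  refine k1.le.trans ?_
  rw [Nat.cast_le]
  refine card_le_card fun D hDm => ?_
  obtain ⟨m1, m2⟩ := mem_filter.1 hDm
  exact mem_filter.2 ⟨m1, hP D (mem_filter.1 m1).2 m2⟩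

end Pool.Agent.U79.GZ
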