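import Pool.Agent.U79.GZ.Stm

/-!
# Project GZ (helper79): second part, no condition on `D` at the bad places

For the curve `y² = x³ - 4 x² + 2 x` the local images at `2` and at the real place are the same for all odd
positive `D`; so the theorem holds for ALL odd positive squarefree `D`.
-/

set_option autoImplicit false
set_option linter.unusedVariables false

open scoped Classical

namespace Pool.Agent.U79.GZ

open Finset hiding ext
open Filter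
open Pool.Agent.U115.GE (sel Qs)
open Pool.Agent.U79.GY (Cfg Ok Hc Sp In Cl Mod cfg S_CFG)
open Pool.Agent.U255.GY (ff)

/-- squarefree integers composed of primes of `M` -/
def Vs (M : ℕ) (v : ℤ) : Prop := Squarefree v ∧ ∀ l : ℕ, l.Prime → (l : ℤ) ∣ v → l ∣ M

/-- the hypotheses on the twist by `D` -/
structure DatD (a b : ℤ) (M : ℕ) (w : ℤ → ℤ) (D : ℕ) : Prop where
  hM : Mod b (a ^ 2 - 4 * b) M
  nb : ¬ IsSquare b
  nc : ¬ IsSquare (a ^ 2 - 4 * b)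
  s1 : {v : ℤ | Vs M v ∧ LS (a * D) (b * D ^ 2) M v}.ncard ≤ 2
  s2 : {v : ℤ | Vs M v ∧ LS (-2 * (a * D)) ((a ^ 2 - 4 * b) * D ^ 2) M v}.ncard ≤ 2
  hw : ∀ g ∈ Gn M, w g ∈ ZZ M
  hL : ∀ q : ℕ, Sp (cfg b (a ^ 2 - 4 * b) M) q → LS (a * D) (b * D ^ 2) M (q * vv M w q)

/-- GZ-DSC1G: as `S_DSC1`, with the hypotheses on the twist itself (`LS` for `a D`, `b D²` instead of
`a`, `b`; the set in `s1` is `{1, squarefree part of b}`). -/
def S_DSC1G : Prop := S_CFG → ∀ (a b : ℤ) (M : ℕ) (w : ℤ → ℤ) (S : Finset ℕ),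
  Cl (cfg b (a ^ 2 - 4 * b) M) S → DatD a b M w (∏ p ∈ S, p) →
  Gd (cfg b (a ^ 2 - 4 * b) M) (gm M w) (ff a b) S →
  sel (a * ((∏ p ∈ S, p : ℕ) : ℤ)) (b * ((∏ p ∈ S, p : ℕ) : ℤ) ^ 2) ≤ 2

/-- GZ-DSC2G: as `S_DSC2`, with the hypotheses on the twist itself. -/
def S_DSC2G : Prop := S_CFG → S_REC → S_NRM → S_NRM2 → S_ISO → S_FF →
  ∀ (a b : ℤ) (M : ℕ) (w : ℤ → ℤ) (S : Finset ℕ),
  Cl (cfg b (a ^ 2 - 4 * b) M) S → DatD a b M w (∏ p ∈ S, p) →
  Gd (cfg b (a ^ 2 - 4 * b) M) (gm M w) (ff a b) S →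
  sel (-2 * (a * ((∏ p ∈ S, p : ℕ) : ℤ)))
    ((a ^ 2 - 4 * b) * ((∏ p ∈ S, p : ℕ) : ℤ) ^ 2) ≤ 2

/-- GZ-EX1G: `y² = x³ - 4 x² + 2 x`, all odd positive `D`: the local image at `2` is generated by `-1` and `2`
for `E_D` and by `2` for the isogenous curve (for all odd `D`); at the real place `v > 0` for `E_D`. -/
def S_EX1G : Prop := ∀ D : ℕ, D % 2 = 1 → DatD (-4) 2 8 (fun _ => 1) D

/-- GZ-SQF: the odd squarefree numbers. -/
def S_SQF : Prop :=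
  Tendsto (fun X : ℕ => (((Icc 1 X).filter fun D : ℕ => Squarefree D ∧ D % 2 = 1).card : ℝ) /
    (((Icc (-(X : ℤ)) X).filter fun D : ℤ => Squarefree D).card : ℝ)) atTop (nhds (1 / 3)) ∧
  Tendsto (fun X : ℕ => (((Icc 1 (X / 2)).filter fun D : ℕ => Squarefree D ∧ D % 2 = 1).card : ℝ) /
    (((Icc (-(X : ℤ)) X).filter fun D : ℤ => Squarefree D).card : ℝ)) atTop (nhds (1 / 6))

end Pool.Agent.U79.GZ
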