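import Pool.Agent.U79.GZ.FIN2
import Pool.Agent.U79.GZ.Stm2

/-!
# Project GZ (helper79): all quadratic twists of `y² = x³ - 4 x² + 2 x`
-/

set_option autoImplicit false

open scoped Classical

namespace Pool.Agent.U79.GZ

open Finset hiding ext
open Filter
open Pool.Agent.Y703.CX (S_SIE)
open Pool.Agent.Y703.CQ (S_EQ)
open Pool.Agent.U115.GD (S_MER S_CHE)
open Pool.Agent.U115.GE (sel Qs ELS SelSet)
open Pool.Agent.Y682 (gc wc)
open Pool.Agent.TH841.NF.D (rk Sha)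
open Pool.Agent.U79.TF (sel2 gc_ne)
open Pool.Agent.U79.GY (Cfg Ok Hc Sp In Cl SS da db dl s4 Mod cfg Ind S_HAL1 S_DEN S_CFG CntP S_BIL
  sq_both not_dvd_cast prod_tw)
open Pool.Agent.U255.GY (ff)

/-- all the parts for the special curve -/
structure All2 : Prop extends All where
  dsc1g : S_DSC1G
  dsc2g : S_DSC2G
  ex1g : S_EX1G
  sqf : S_SQF

/-! ### scaling -/

theorem qs4 {K : Type} [Field K] [CharZero K] {A B d : ℤ} : Qs K (4 * A) (16 * B) d ↔ Qs K A B d := by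
  have h2 : (2 : K) ≠ 0 := two_ne_zero
  constructor
  · rintro ⟨N, M, e, hne, h⟩
    refine ⟨N, M, 2 * e, hne.imp_right fun he => mul_ne_zero h2 he, ?_⟩
    rw [h]
    push_cast
    ring
  · rintro ⟨N, M, e, hne, h⟩
    refine ⟨N, M, e / 2, hne.imp_right fun he => div_ne_zero he h2, ?_⟩
    rw [h]
    push_cast
    field_simp
    ring

theorem sel4 (A B : ℤ) : sel (4 * A) (16 * B) = sel A B := by
  unfold sel SelSet ELS
  congr 1
  ext d
  constructor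
  · rintro ⟨h1, h2, h3⟩
    exact ⟨h1, qs4.1 h2, fun p _ => qs4.1 (h3 p)⟩
  · rintro ⟨h1, h2, h3⟩
    exact ⟨h1, qs4.2 h2, fun p _ => qs4.2 (h3 p)⟩

/-! ### the odd squarefree numbers -/

/-- the odd squarefree numbers up to `X` -/
noncomputable def OD (X : ℕ) : Finset ℕ := (Icc 1 X).filter fun D => Squarefree D ∧ D % 2 = 1

theorem mod8 : Mod 2 8 8 := ⟨by norm_num, by norm_num, by norm_num, by norm_num⟩

theorem hw8 : ∀ g ∈ Gn 8, (fun _ : ℤ => (1 : ℤ)) g ∈ ZZ 8 := by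
  intro _ _
  show (1 : ℤ) ∈ ZZ 8
  unfold ZZ
  rw [mem_image]
  exact ⟨(1, ∅), mem_product.2 ⟨by simp, empty_mem_powerset _⟩, by simp⟩

theorem nb2 : ¬ IsSquare (2 : ℤ) := by
  rintro ⟨r, hr⟩
  have h1 : r ≤ 1 := by nlinarith
  have h2 : -1 ≤ r := by nlinarith
  interval_cases r <;> omega

theorem nc8 : ¬ IsSquare (8 : ℤ) := by
  rintro ⟨r, hr⟩
  have h1 : r ≤ 2 := by nlinarith
  have h2 : -2 ≤ r := by nlinarith
  interval_cases r <;> omega

theorem nneg {z : ℤ} (h : z < 0) : ¬ IsSquare z := fun h1 => absurd h1.nonneg (not_le.2 h)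

theorem cl_odd (H : Base) {D : ℕ} (h1 : D % 2 = 1) : Cl (cfg 2 8 8) D.primeFactors := by
  obtain ⟨-, hS, hI⟩ := H.cfg 2 8 8 mod8 nb2 nc8
  intro p hp
  have hpp := Nat.prime_of_mem_primeFactors hp
  have hd := Nat.dvd_of_mem_primeFactors hp
  have := Fact.mk hpp
  have h2 : ¬ p ∣ 8 := by
    intro h
    have : p ∣ 2 := hpp.dvd_of_dvd_pow (show p ∣ 2 ^ 3 by norm_num; exact h)
    have h3 : p = 2 := (Nat.prime_dvd_prime_iff_eq hpp Nat.prime_two).1 this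
    subst h3
    omega
  have h4 : IsSquare (((2 : ℤ) : ZMod p) * ((8 : ℤ) : ZMod p)) := ⟨4, by push_cast; norm_num⟩
  rcases sq_both (not_dvd_cast h2 mod8.hb) (not_dvd_cast h2 mod8.hc) h4 with h5 | h5
  · exact Or.inl ((hS p hpp).2 ⟨h2, h5⟩)
  · exact Or.inr ((hI p hpp).2 ⟨h2, h5⟩)

theorem count_odd (H : Base) (X : ℕ) (P : Finset ℕ → Prop) :
    ((SP (cfg 2 8 8) (range (cfg 2 8 8).Q) X).filter fun S => P S).card =
      ((OD X).filter fun D => P D.primeFactors).card := by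
  have hO := (H.cfg 2 8 8 mod8 nb2 nc8).1
  obtain ⟨-, hSp, hIn⟩ := H.cfg 2 8 8 mod8 nb2 nc8
  have hpr : ∀ S, Cl (cfg 2 8 8) S → ∀ p ∈ S, p.Prime := fun S hS p hp =>
    (hS p hp).elim (fun h => h.1) fun h => h.1
  have hpo : ∀ S, Cl (cfg 2 8 8) S → ∀ p ∈ S, p ≠ 2 := by
    intro S hS p hp h2
    subst h2
    rcases hS 2 hp with h | h
    · exact ((hSp 2 Nat.prime_two).1 h).1 (by norm_num)
    · exact ((hIn 2 Nat.prime_two).1 h).1 (by norm_num)
  symm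
  refine card_bij (fun D _ => D.primeFactors) (fun D hD => ?_) (fun D hD E hE h => ?_) fun S hS => ?_
  · obtain ⟨hD1, hD2⟩ := mem_filter.1 hD
    obtain ⟨hD3, hD4⟩ := mem_filter.1 hD1
    have hle := (mem_Icc.1 hD3).2
    have hprod : ∏ p ∈ D.primeFactors, p = D := Nat.prod_primeFactors_of_squarefree hD4.1
    refine mem_filter.2 ⟨mem_filter.2 ⟨mem_filter.2 ⟨mem_powerset.2 fun p hp => ?_,
      cl_odd H hD4.2, ?_⟩, ?_⟩, hD2⟩
    · exact mem_range.2 (Nat.lt_succ_of_le ((Nat.le_of_mem_primeFactors hp).trans hle))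
    · rw [hprod]
      exact hle
    · exact mem_range.2 (Nat.mod_lt _ hO.q0)
  · have h2 := (mem_filter.1 (mem_filter.1 hD).1).2.1
    have h3 := (mem_filter.1 (mem_filter.1 hE).1).2.1
    have h' : D.primeFactors = E.primeFactors := h
    rw [← Nat.prod_primeFactors_of_squarefree h2, ← Nat.prod_primeFactors_of_squarefree h3, h']
  · obtain ⟨hS1, hS2⟩ := mem_filter.1 hS
    obtain ⟨hS3, hS4⟩ := mem_filter.1 hS1
    obtain ⟨-, hS5, hS6⟩ := mem_filter.1 hS3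
    have hpf : (∏ p ∈ S, p).primeFactors = S := Nat.primeFactors_prod (hpr S hS5)
    have htw := prod_tw H.cfg mod8 nb2 nc8 hS5
    have hsq : Squarefree (∏ p ∈ S, p) := Int.squarefree_natCast.1 htw.1
    refine ⟨∏ p ∈ S, p, ?_, hpf⟩
    refine mem_filter.2 ⟨mem_filter.2 ⟨mem_Icc.2 ⟨Nat.one_le_iff_ne_zero.2 hsq.ne_zero, hS6⟩,
      hsq, ?_⟩, ?_⟩
    · by_contra h
      have h2 : 2 ∣ ∏ p ∈ S, p := by omega
      obtain ⟨p, hp, hd⟩ := (Nat.prime_two.prime.dvd_finsetProd_iff _).1 h2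
      exact hpo S hS5 p hp ((Nat.prime_dvd_prime_iff_eq Nat.prime_two (hpr S hS5 p hp)).1 hd).symm
    · rw [hpf]
      exact hS2

/-- the matrix of `D` is nonsingular -/
def GD (D : ℕ) : Prop := Gd (cfg 2 8 8) (gm 8 fun _ => 1) (ff (-4) 2) D.primeFactors

/-- the exact proportion -/
theorem law_odd (H : Base) : Tendsto (fun X : ℕ => (((OD X).filter GD).card : ℝ) /
    ((OD X).card : ℝ)) atTop (nhds eta) := by
  have hO := (H.cfg 2 8 8 mod8 nb2 nc8).1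
  obtain ⟨hGa, -, -, -, hr⟩ := H.gam H.cfg 2 8 8 (fun _ => 1) mod8 nb2 nc8 hw8
  have h := H.asy (H.key H.bil H.eq H.la H.box) H.cnt H.sie H.bad H.few H.few' H.mer H.che H.low
    (cfg 2 8 8) (gm 8 fun _ => 1) (ZZ 8) (ff (-4) 2) (range (cfg 2 8 8).Q) hO hGa
    (H.halz H.hal1 H.den H.cfg 2 8 8 mod8 nb2 nc8)
    (hr (nneg (by norm_num)) (nneg (by norm_num)) (nneg (by norm_num)))
    fun n _ => mem_range.2 (Nat.mod_lt _ hO.q0)
  refine h.congr fun X => ?_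
  have e1 := count_odd H X fun S => Gd (cfg 2 8 8) (gm 8 fun _ => 1) (ff (-4) 2) S
  have e2 := count_odd H X fun _ => True
  simp only [filter_true] at e2
  rw [e1, e2]
  rfl

/-! ### the twists -/

/-- the minimal twists: both Selmer groups have two elements, the group is finite, and the
Tate-Shafarevich group has no `2`-primary part -/
def Mi (D : ℤ) : Prop := sel (-4 * D) (2 * D ^ 2) = 2 ∧ sel (8 * D) (8 * D ^ 2) = 2 ∧
  rk (gc (-4 * D) (2 * D ^ 2) ℚ) = 0 ∧ Finite (gc (-4 * D) (2 * D ^ 2) ℚ).toAffine.Point ∧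
  ∀ (n : ℕ) (x : Sha (gc (-4 * D) (2 * D ^ 2) ℚ)), 2 ^ n • x = 0 → x = 0

theorem sel_odd (H : All2) {D : ℕ} (hD : D ∈ OD D) (hG : GD D) :
    sel (-4 * D) (2 * D ^ 2) ≤ 2 ∧ sel (8 * D) (8 * D ^ 2) ≤ 2 := by
  obtain ⟨-, hs, ho⟩ := mem_filter.1 hD
  have hprod : ∏ p ∈ D.primeFactors, p = D := Nat.prod_primeFactors_of_squarefree hs
  have hcl := cl_odd H.toBase ho
  have hc : ((-4 : ℤ) ^ 2 - 4 * 2) = 8 := by norm_num
  have hd : DatD (-4) 2 8 (fun _ => 1) (∏ p ∈ D.primeFactors, p) := by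
    rw [hprod]
    exact H.ex1g D ho
  have hG' : Gd (cfg 2 8 8) (gm 8 fun _ => 1) (ff (-4) 2) D.primeFactors := hG
  rw [← hc] at hcl
  have k1 := H.dsc1g H.cfg (-4) 2 8 (fun _ => 1) D.primeFactors hcl hd (by rw [hc]; exact hG')
  have k2 := H.dsc2g H.cfg H.rcp H.nrm H.nrm2 H.iso H.ff (-4) 2 8 (fun _ => 1) D.primeFactors hcl hd
    (by rw [hc]; exact hG')
  rw [hprod] at k1 k2
  rw [hc] at k2
  refine ⟨k1, ?_⟩
  have e : (-2 : ℤ) * (-4 * D) = 8 * D := by ring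
  rwa [e] at k2

theorem mi_odd (H : All2) {D : ℕ} (hD : D ∈ OD D) (hG : GD D) : Mi D := by
  obtain ⟨k1, k2⟩ := sel_odd H hD hG
  have hD0 : (D : ℤ) ≠ 0 := by exact_mod_cast (mem_filter.1 hD).2.1.ne_zero
  have hB : (2 : ℤ) * D ^ 2 ≠ 0 := by positivity
  have e1 : (-2 : ℤ) * (-4 * D) = 8 * D := by ring
  have e2 : (-4 * (D : ℤ)) ^ 2 - 4 * (2 * D ^ 2) = 8 * D ^ 2 := by ring
  have hC : (-4 * (D : ℤ)) ^ 2 - 4 * (2 * D ^ 2) ≠ 0 := by rw [e2]; positivity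
  have := triv_of_sel hB hC k1 (by rw [e1, e2]; exact k2)
  rw [e1, e2] at this
  exact this

theorem mi_even (H : All2) {D : ℕ} (hD : D ∈ OD D) (hG : GD D) : Mi (-2 * D) := by
  obtain ⟨k1, k2⟩ := sel_odd H hD hG
  have hD0 : (D : ℤ) ≠ 0 := by exact_mod_cast (mem_filter.1 hD).2.1.ne_zero
  have f1 : (-4 : ℤ) * (-2 * D) = 8 * D := by ring
  have f2 : (2 : ℤ) * (-2 * D) ^ 2 = 8 * D ^ 2 := by ring
  have f3 : (8 : ℤ) * (-2 * D) = 4 * (-4 * D) := by ring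
  have f4 : (8 : ℤ) * (-2 * D) ^ 2 = 16 * (2 * D ^ 2) := by ring
  have hB : (8 : ℤ) * D ^ 2 ≠ 0 := by positivity
  have e1 : (-2 : ℤ) * (8 * D) = 4 * (-4 * D) := by ring
  have e2 : (8 * (D : ℤ)) ^ 2 - 4 * (8 * D ^ 2) = 16 * (2 * D ^ 2) := by ring
  have hC : (8 * (D : ℤ)) ^ 2 - 4 * (8 * D ^ 2) ≠ 0 := by rw [e2]; positivity
  have := triv_of_sel hB hC k2 (by rw [e1, e2, sel4]; exact k1)
  rw [e1, e2] at this
  unfold Mi
  rw [f1, f2, f3, f4]
  exact this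

/-! ### the proportion -/

/-- the squarefree integers up to `X` in absolute value -/
noncomputable def SQ (X : ℕ) : Finset ℤ := (Icc (-(X : ℤ)) X).filter fun D => Squarefree D

theorem mem_OD {X D : ℕ} (h : D ∈ OD X) : D ∈ OD D := by
  obtain ⟨h1, h2⟩ := mem_filter.1 h
  exact mem_filter.2 ⟨mem_Icc.2 ⟨(mem_Icc.1 h1).1, le_rfl⟩, h2⟩

theorem count_ge (H : All2) (X : ℕ) : ((OD X).filter GD).card + ((OD (X / 2)).filter GD).card ≤
    ((SQ X).filter Mi).card := by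
  have hdisj : Disjoint (((OD X).filter GD).image fun D : ℕ => (D : ℤ))
      (((OD (X / 2)).filter GD).image fun D : ℕ => -2 * (D : ℤ)) := by
    rw [disjoint_left]
    intro x hx hy
    obtain ⟨D, -, hD⟩ := mem_image.1 hx
    obtain ⟨E, hE, hE'⟩ := mem_image.1 hy
    have hE0 := (mem_Icc.1 (mem_filter.1 (mem_filter.1 hE).1).1).1
    omega
  have h1 : (((OD X).filter GD).image fun D : ℕ => (D : ℤ)).card = ((OD X).filter GD).card :=
    card_image_of_injective _ Nat.cast_injective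
  have h2 : (((OD (X / 2)).filter GD).image fun D : ℕ => -2 * (D : ℤ)).card =
      ((OD (X / 2)).filter GD).card := card_image_of_injective _ fun D E h => by
    have h' : (-2 : ℤ) * D = -2 * E := h
    omega
  rw [← h1, ← h2, ← card_union_of_disjoint hdisj]
  refine card_le_card fun x hx => ?_
  rcases mem_union.1 hx with h | h
  · obtain ⟨D, hD, rfl⟩ := mem_image.1 h
    obtain ⟨hD1, hD2⟩ := mem_filter.1 hD
    obtain ⟨hD3, hs, ho⟩ := mem_filter.1 hD1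
    have hle := mem_Icc.1 hD3
    refine mem_filter.2 ⟨mem_filter.2 ⟨mem_Icc.2 ⟨by omega, by omega⟩,
      Int.squarefree_natCast.2 hs⟩, mi_odd H (mem_OD hD1) hD2⟩
  · obtain ⟨D, hD, rfl⟩ := mem_image.1 h
    obtain ⟨hD1, hD2⟩ := mem_filter.1 hD
    obtain ⟨hD3, hs, ho⟩ := mem_filter.1 hD1
    have hle := mem_Icc.1 hD3
    have hX : 2 * (X / 2) ≤ X := Nat.mul_div_le X 2
    refine mem_filter.2 ⟨mem_filter.2 ⟨mem_Icc.2 ⟨by omega, by omega⟩, ?_⟩,
      mi_even H (mem_OD hD1) hD2⟩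
    rw [← Int.squarefree_natAbs, Int.natAbs_mul, Int.natAbs_natCast]
    refine (Nat.squarefree_mul ?_).2 ⟨?_, hs⟩
    · exact Nat.coprime_two_left.2 (Nat.odd_iff.2 ho)
    · exact Nat.prime_two.prime.squarefree

theorem quot_mul {s t : Finset ℕ} (h : s ⊆ t) (z : ℝ) :
    (s.card : ℝ) / (t.card : ℝ) * ((t.card : ℝ) / z) = (s.card : ℝ) / z := by
  by_cases h0 : (t.card : ℝ) = 0
  · have h1 : t.card = 0 := by exact_mod_cast h0
    have h2 : s.card = 0 := Nat.le_zero.1 (h1 ▸ card_le_card h)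
    rw [h2, h0]
    simp
  · field_simp

/-- **at least `η / 2 = 14.43...` percent of all quadratic twists of `y² = x³ - 4 x² + 2 x` are minimal** -/
theorem main_ge (H : All2) {ε : ℝ} (hε : 0 < ε) : ∃ X₀ : ℕ, ∀ X : ℕ, X₀ ≤ X →
    (eta / 2 - ε) * ((SQ X).card : ℝ) ≤ (((SQ X).filter Mi).card : ℝ) := by
  have h1 := law_odd H.toBase
  have h2 : Tendsto (fun X : ℕ => (((OD (X / 2)).filter GD).card : ℝ) / ((OD (X / 2)).card : ℝ))
      atTop (nhds eta) := h1.comp (Nat.tendsto_div_const_atTop two_ne_zero)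
  obtain ⟨h3, h4⟩ := H.sqf
  have h5 := (h1.mul h3).add (h2.mul h4)
  have e5 : eta * (1 / 3) + eta * (1 / 6) = eta / 2 := by ring
  rw [e5] at h5
  obtain ⟨X₀, hX₀⟩ := eventually_atTop.1 (h5.eventually (lt_mem_nhds (show eta / 2 - ε < eta / 2 by
    linarith)))
  refine ⟨max X₀ 1, fun X hX => ?_⟩
  have k1 := hX₀ X (le_trans (le_max_left _ _) hX)
  have hX1 : 1 ≤ X := le_trans (le_max_right _ _) hX
  have hpos : (0 : ℝ) < ((SQ X).card : ℝ) := by
    rw [Nat.cast_pos, card_pos]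
    exact ⟨1, mem_filter.2 ⟨mem_Icc.2 ⟨by omega, by omega⟩, squarefree_one⟩⟩
  have k2 := quot_mul (filter_subset GD (OD X)) ((SQ X).card : ℝ)
  have k3 := quot_mul (filter_subset GD (OD (X / 2))) ((SQ X).card : ℝ)
  have k4 : eta / 2 - ε < (((OD X).filter GD).card : ℝ) / ((SQ X).card : ℝ) +
      (((OD (X / 2)).filter GD).card : ℝ) / ((SQ X).card : ℝ) := by
    rw [← k2, ← k3]
    exact k1
  rw [← add_div, lt_div_iff₀ hpos] at k4
  refine k4.le.trans ?_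
  exact_mod_cast count_ge H X

end Pool.Agent.U79.GZ
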