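import Pool.Agent.U79.GZ.FIN2
import Pool.Agent.Y356.CQ.EQ
import Pool.Agent.Y488.CX.Sie
import Pool.Agent.U2.GD.LOW
import Pool.Agent.U864.GY.BIL
import Pool.Agent.U263.GY.CFG
import Pool.Agent.U278.GY.CNT
import Pool.Agent.U454.GY.DEN
import Pool.Agent.U780.GY.FEW
import Pool.Agent.U796.GY.HAL1
import Pool.Agent.U978.GZ.ASY
import Pool.Agent.U643.GZ.LAW
import Pool.Agent.U97.GZ.LIM
import Pool.Agent.U876.GZ.BON
import Pool.Agent.U342.GZ.NRM2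
import Pool.Agent.U730.GZ.NRM
import Pool.Agent.U46.GZ.REC
import Pool.Agent.U148.GZ.ISO
import Pool.Agent.U399.GZ.BAD
import Pool.Agent.U263.GZ.GAM
import Pool.Agent.U67.GZ.HALZ
import Pool.Agent.U796.GZ.BOX
import Pool.Agent.U467.GZ.KEY
import Pool.Agent.U49.GZ.LOW
import Pool.Agent.U411.GZ.FEW
import Pool.Agent.U603.GZ.FF
import Pool.Agent.U354.GZ.DSC1
import Pool.Agent.U678.GZ.DSC2
import Pool.Agent.U962.GZ.EX1
import Pool.Agent.U810.GZ.EX2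

/-!
# Project GZ (helper79): the parts
-/

set_option autoImplicit false

namespace Pool.Agent.U79.GZ

theorem base_of (ik : S_IK) : Base where
  bil := Pool.Agent.U864.GY.t_BIL
  eq := Pool.Agent.Y356.CQ.t_EQ
  la := Pool.Agent.U643.GZ.t_LAW Pool.Agent.U97.GZ.t_LIM Pool.Agent.U876.GZ.t_BON ik
  box := Pool.Agent.U796.GZ.t_BOX
  key := Pool.Agent.U467.GZ.t_KEY
  cnt := Pool.Agent.U278.GY.t_CNT
  sie := Pool.Agent.Y488.CX.t_SIE
  bad := Pool.Agent.U399.GZ.t_BAD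
  few := Pool.Agent.U411.GZ.t_FEW
  few' := Pool.Agent.U780.GY.FEW.t_FEW
  mer := Pool.Agent.U2.GD.t_MER
  che := Pool.Agent.U2.GD.t_CHE
  low := Pool.Agent.U49.GZ.t_LOW
  asy := Pool.Agent.U978.GZ.t_ASY
  hal1 := Pool.Agent.U796.GY.t_HAL1
  den := Pool.Agent.U454.GY.t_DEN
  cfg := Pool.Agent.U263.GY.t_CFG
  halz := Pool.Agent.U67.GZ.t_HALZ
  gam := Pool.Agent.U263.GZ.t_GAM

theorem all_of (ik : S_IK) : All where
  toBase := base_of ik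
  rcp := Pool.Agent.U46.GZ.t_REC
  nrm := Pool.Agent.U730.GZ.t_NRM
  nrm2 := Pool.Agent.U342.GZ.t_NRM2
  iso := Pool.Agent.U148.GZ.t_ISO
  ff := Pool.Agent.U603.GZ.t_FF
  dsc1 := Pool.Agent.U354.GZ.t_DSC1
  dsc2 := Pool.Agent.U678.GZ.t_DSC2

end Pool.Agent.U79.GZ
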