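import Pool.Agent.U79.GZ.Stm3

/-!
# Project GZ (helper79): fourth part, the twists of odd parity
-/

set_option autoImplicit false
set_option linter.unusedVariables false

open scoped Classical

namespace Pool.Agent.U79.GZ

open Finset hiding ext
open Pool.Agent.U115.GE (sel Qs)
open Pool.Agent.U79.GY (Cfg Ok Hc Sp In Cl s4 cfg S_CFG)
open Pool.Agent.U255.GY (ff)

/-- GZ-DSCN: for the twists of `y² = x³ - 4 x² + 2 x` by `-D`, `D` odd, positive, squarefree, the two Selmer
groups have different sizes. With `x` the indicator of the primes of `d` (all are split primes of `D`) and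
`s p = s4 p`: the first Selmer group (for `4 D`, `2 D²`: no condition at the real place, at `2` the image is
generated by `-1` and `2`) consists of `d = (-1) ^ ε u ∏ T`, `u ∈ {1, 2}`, with `M x = ε s`; the second (for `-8 D`,
`8 D²`: `d' > 0`, at `2` the image is generated by `2`, so the odd part is `1` modulo `8`, i.e. `∑ s p x' p = 0`) of
`d' = u' ∏ T'` with `x'ᵀ M = 0`, `x'ᵀ s = 0`. So they are the kernels of the matrix `(M | s)` with `n` rows and
`n + 1` columns and of its transpose. (`M` is the matrix of `S_DSCE`, up to the symbols of `-1` in the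
diagonal: with `ff 4 2 p` instead of `ff (-4) 2 p`.) -/
def S_DSCN : Prop := S_CFG → ∀ D : ℕ, Squarefree D → D % 2 = 1 →
  sel (4 * D) (2 * D ^ 2) = 2 * sel (-8 * D) (8 * D ^ 2)

end Pool.Agent.U79.GZ
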