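import Pool.Agent.U79.GZ.FIN3
import Pool.Agent.U79.GZ.Stm4

/-!
# Project GZ (helper79): the exact distribution for all quadratic twists of `y² = x³ - 4 x² + 2 x`
-/

set_option autoImplicit false

open scoped Classical

namespace Pool.Agent.U79.GZ

open Finset hiding ext
open Filter
open Pool.Agent.Y703.CX (S_SIE)
open Pool.Agent.Y703.CQ (S_EQ)
open Pool.Agent.U115.GD (S_MER S_CHE)
open Pool.Agent.U115.GE (sel Qs ELS SelSet)
open Pool.Agent.Y682 (gc wc)
open Pool.Agent.TH841.NF.D (rk Sha)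
open Pool.Agent.U79.TF (sel2 gc_ne)
open Pool.Agent.U79.GY (Cfg Ok Hc Sp In Cl SS da db dl s4 Mod cfg Ind S_HAL1 S_DEN S_CFG CntP S_BIL
  sq_both not_dvd_cast prod_tw)
open Pool.Agent.U255.GY (ff)

/-- all the parts for the exact distribution -/
structure All3 : Prop extends Base where
  sqf : S_SQF
  lim : S_LIM
  lak : S_LAK
  boxk : S_BOXK
  keyk : S_KEYK
  asyk : S_ASYK
  dsce : S_DSCE
  dscn : S_DSCN

/-- the number of the elements of the kernel of the matrix of `D` -/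
noncomputable def KD (D : ℕ) : ℕ := Kn (cfg 2 8 8) (gm 8 fun _ => 1) (ff (-4) 2) D.primeFactors

theorem fc {α : Type} (s : Finset α) (p : α → Prop) (d1 d2 : DecidablePred p) :
    (@Finset.filter α p d1 s).card = (@Finset.filter α p d2 s).card := by
  rw [Subsingleton.elim d1 d2]

/-- the exact proportions -/
theorem law_odd_t (H : All3) (t : ℕ) :
    Tendsto (fun X : ℕ => (((OD X).filter fun D => KD D = 2 ^ t).card : ℝ) / ((OD X).card : ℝ))
      atTop (nhds (et t)) := by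
  have hO := (H.cfg 2 8 8 mod8 nb2 nc8).1
  obtain ⟨hGa, -, -, -, hr⟩ := H.gam H.cfg 2 8 8 (fun _ => 1) mod8 nb2 nc8 hw8
  have h := H.asyk (H.keyk H.bil H.eq H.lak H.boxk) H.cnt H.sie H.bad H.few H.few' H.mer H.che H.low
    H.lim (cfg 2 8 8) (gm 8 fun _ => 1) (ZZ 8) (ff (-4) 2) (range (cfg 2 8 8).Q) t hO hGa
    (H.halz H.hal1 H.den H.cfg 2 8 8 mod8 nb2 nc8)
    (hr (nneg (by norm_num)) (nneg (by norm_num)) (nneg (by norm_num)))
    fun n _ => mem_range.2 (Nat.mod_lt _ hO.q0)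
  refine h.congr fun X => ?_
  have e0 := count_odd H.toBase X fun S => Kn (cfg 2 8 8) (gm 8 fun _ => 1) (ff (-4) 2) S = 2 ^ t
  have e1 : ((SP (cfg 2 8 8) (range (cfg 2 8 8).Q) X).filter fun S =>
      Kn (cfg 2 8 8) (gm 8 fun _ => 1) (ff (-4) 2) S = 2 ^ t).card =
      ((OD X).filter fun D => KD D = 2 ^ t).card := (fc _ _ _ _).trans (e0.trans (fc _ _ _ _))
  have e2 := count_odd H.toBase X fun _ => True
  simp only [filter_true] at e2
  rw [e1, e2]

/-- the two Selmer groups of the twist by `D` -/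
noncomputable def s1 (D : ℤ) : ℕ := sel (-4 * D) (2 * D ^ 2)

/-- the Selmer group of the isogenous curve -/
noncomputable def s2 (D : ℤ) : ℕ := sel (8 * D) (8 * D ^ 2)

theorem s_pos {D : ℤ} (hD : D ≠ 0) : s1 D ≠ 0 ∧ s2 D ≠ 0 := by
  have hB : (2 : ℤ) * D ^ 2 ≠ 0 := by positivity
  have e1 : (-2 : ℤ) * (-4 * D) = 8 * D := by ring
  have e2 : (-4 * D) ^ 2 - 4 * (2 * D ^ 2) = 8 * D ^ 2 := by ring
  have hC : (-4 * D) ^ 2 - 4 * (2 * D ^ 2) ≠ 0 := by rw [e2]; positivity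
  have h4 : 4 ≤ sel (-4 * D) (2 * D ^ 2) * sel (-2 * (-4 * D)) ((-4 * D) ^ 2 - 4 * (2 * D ^ 2)) :=
    Pool.Agent.U79.TF.sel2_ge hB hC
  rw [e1, e2] at h4
  refine ⟨fun h => ?_, fun h => ?_⟩
  · unfold s1 at h
    rw [h] at h4
    omega
  · unfold s2 at h
    rw [h] at h4
    omega

/-- the dual of the twist by `-2 D` is the twist by `D` -/
theorem s1_neg2 (D : ℤ) : s1 (-2 * D) = s2 D := by
  unfold s1 s2
  congr 1 <;> ring

theorem s2_neg2 (D : ℤ) : s2 (-2 * D) = s1 D := by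
  unfold s1 s2
  rw [← sel4 (-4 * D) (2 * D ^ 2)]
  congr 1 <;> ring

theorem s_odd (H : All3) {D : ℕ} (hs : Squarefree D) (ho : D % 2 = 1) :
    s1 D = 2 * KD D ∧ s2 D = 2 * KD D := H.dsce H.cfg D hs ho

theorem s_neg (H : All3) {D : ℕ} (hs : Squarefree D) (ho : D % 2 = 1) :
    s1 (-(D : ℤ)) = 2 * s2 (-(D : ℤ)) := by
  have h := H.dscn H.cfg D hs ho
  unfold s1 s2
  have e1 : (-4 : ℤ) * (-(D : ℤ)) = 4 * D := by ring
  have e2 : (2 : ℤ) * (-(D : ℤ)) ^ 2 = 2 * D ^ 2 := by ring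
  have e3 : (8 : ℤ) * (-(D : ℤ)) = -8 * D := by ring
  have e4 : (8 : ℤ) * (-(D : ℤ)) ^ 2 = 8 * D ^ 2 := by ring
  rw [e1, e2, e3, e4]
  exact h

/-- both Selmer groups have `2 ^ (t + 1)` elements -/
def Tt (t : ℕ) (D : ℤ) : Prop := s1 D = 2 ^ (t + 1) ∧ s2 D = 2 ^ (t + 1)

theorem tt_iff (H : All3) (t : ℕ) {D : ℕ} (hs : Squarefree D) (ho : D % 2 = 1) :
    (Tt t D ↔ KD D = 2 ^ t) ∧ (Tt t (-2 * D) ↔ KD D = 2 ^ t) := by
  obtain ⟨h1, h2⟩ := s_odd H hs ho
  have e : 2 * KD D = 2 ^ (t + 1) ↔ KD D = 2 ^ t := by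
    rw [pow_succ]
    omega
  unfold Tt
  rw [s1_neg2, s2_neg2, h1, h2]
  exact ⟨(and_self_iff).trans e, (and_self_iff).trans e⟩

theorem not_tt (H : All3) (t : ℕ) {D : ℕ} (hs : Squarefree D) (ho : D % 2 = 1) :
    ¬ Tt t (-(D : ℤ)) ∧ ¬ Tt t (2 * (D : ℤ)) := by
  have h0 : (D : ℤ) ≠ 0 := by exact_mod_cast hs.ne_zero
  obtain ⟨p1, p2⟩ := s_pos (neg_ne_zero.2 h0)
  have h := s_neg H hs ho
  have e1 : s1 (2 * (D : ℤ)) = s2 (-(D : ℤ)) := by
    rw [← s1_neg2]
    congr 1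
    ring
  have e2 : s2 (2 * (D : ℤ)) = s1 (-(D : ℤ)) := by
    rw [← s2_neg2]
    congr 1
    ring
  unfold Tt
  rw [e1, e2]
  omega

/-- every squarefree integer is `±D` or `±2 D` with `D` odd -/
theorem tt_set (H : All3) (t X : ℕ) : (SQ X).filter (Tt t) =
    (((OD X).filter fun D => KD D = 2 ^ t).image fun D : ℕ => (D : ℤ)) ∪
    (((OD (X / 2)).filter fun D => KD D = 2 ^ t).image fun D : ℕ => -2 * (D : ℤ)) := by
  ext x
  rw [mem_union, mem_image, mem_image]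
  constructor
  · intro hx
    obtain ⟨hx1, hx2⟩ := mem_filter.1 hx
    obtain ⟨hx3, hx4⟩ := mem_filter.1 hx1
    have hle := mem_Icc.1 hx3
    have hx0 : x ≠ 0 := hx4.ne_zero
    have hn : Squarefree x.natAbs := Int.squarefree_natAbs.2 hx4
    by_cases hodd : x.natAbs % 2 = 1
    · rcases lt_or_gt_of_ne hx0 with h | h
      · exfalso
        have e : x = -((x.natAbs : ℕ) : ℤ) := by omega
        exact (not_tt H t hn hodd).1 (by rw [← e]; exact hx2)
      · left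
        have e : ((x.natAbs : ℕ) : ℤ) = x := by omega
        refine ⟨x.natAbs, mem_filter.2 ⟨mem_filter.2 ⟨mem_Icc.2 ⟨by omega, by omega⟩, hn, hodd⟩, ?_⟩, e⟩
        exact (tt_iff H t hn hodd).1.1 (by rw [e]; exact hx2)
    · have hev : x.natAbs = 2 * (x.natAbs / 2) := by omega
      set m := x.natAbs / 2 with hm
      have hm1 : m % 2 = 1 := by
        by_contra h
        have : 2 * 2 ∣ x.natAbs := by
          rw [hev]
          exact Nat.mul_dvd_mul_left 2 (by omega)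
        have := hn 2 this
        rw [Nat.isUnit_iff] at this
        omega
      have hms : Squarefree m := hn.squarefree_of_dvd ⟨2, by omega⟩
      rcases lt_or_gt_of_ne hx0 with h | h
      · right
        have e : -2 * ((m : ℕ) : ℤ) = x := by omega
        refine ⟨m, mem_filter.2 ⟨mem_filter.2 ⟨mem_Icc.2 ⟨by omega, by omega⟩, hms, hm1⟩, ?_⟩, e⟩
        exact (tt_iff H t hms hm1).2.1 (by rw [e]; exact hx2)
      · exfalso
        have e : x = 2 * ((m : ℕ) : ℤ) := by omega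
        exact (not_tt H t hms hm1).2 (by rw [← e]; exact hx2)
  · rintro (⟨D, hD, rfl⟩ | ⟨D, hD, rfl⟩)
    · obtain ⟨hD1, hD2⟩ := mem_filter.1 hD
      obtain ⟨hD3, hs, ho⟩ := mem_filter.1 hD1
      have hle := mem_Icc.1 hD3
      exact mem_filter.2 ⟨mem_filter.2 ⟨mem_Icc.2 ⟨by omega, by omega⟩,
        Int.squarefree_natCast.2 hs⟩, (tt_iff H t hs ho).1.2 hD2⟩
    · obtain ⟨hD1, hD2⟩ := mem_filter.1 hD
      obtain ⟨hD3, hs, ho⟩ := mem_filter.1 hD1
      have hle := mem_Icc.1 hD3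
      have hX : 2 * (X / 2) ≤ X := Nat.mul_div_le X 2
      refine mem_filter.2 ⟨mem_filter.2 ⟨mem_Icc.2 ⟨by omega, by omega⟩, ?_⟩,
        (tt_iff H t hs ho).2.2 hD2⟩
      rw [← Int.squarefree_natAbs, Int.natAbs_mul, Int.natAbs_natCast]
      refine (Nat.squarefree_mul ?_).2 ⟨?_, hs⟩
      · exact Nat.coprime_two_left.2 (Nat.odd_iff.2 ho)
      · exact Nat.prime_two.prime.squarefree

theorem tt_card (H : All3) (t X : ℕ) : ((SQ X).filter (Tt t)).card =
    ((OD X).filter fun D => KD D = 2 ^ t).card + ((OD (X / 2)).filter fun D => KD D = 2 ^ t).card := by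
  rw [tt_set H t X, card_union_of_disjoint, card_image_of_injective _ Nat.cast_injective,
    card_image_of_injective _ fun D E h => ?_]
  · have h' : (-2 : ℤ) * D = -2 * E := h
    omega
  · rw [disjoint_left]
    intro x hx hy
    obtain ⟨D, -, hD⟩ := mem_image.1 hx
    obtain ⟨E, hE, hE'⟩ := mem_image.1 hy
    have hE0 := (mem_Icc.1 (mem_filter.1 (mem_filter.1 hE).1).1).1
    omega

/-- **the exact distribution over all quadratic twists** -/
theorem main_t (H : All3) (t : ℕ) :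
    Tendsto (fun X : ℕ => (((SQ X).filter (Tt t)).card : ℝ) / ((SQ X).card : ℝ)) atTop
      (nhds (et t / 2)) := by
  have h1 := law_odd_t H t
  have h2 : Tendsto (fun X : ℕ => (((OD (X / 2)).filter fun D => KD D = 2 ^ t).card : ℝ) /
      ((OD (X / 2)).card : ℝ)) atTop (nhds (et t)) :=
    h1.comp (Nat.tendsto_div_const_atTop two_ne_zero)
  obtain ⟨h3, h4⟩ := H.sqf
  have h5 := (h1.mul h3).add (h2.mul h4)
  have e5 : et t * (1 / 3) + et t * (1 / 6) = et t / 2 := by ring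
  rw [e5] at h5
  refine h5.congr fun X => ?_
  have k2 := quot_mul (filter_subset (fun D => KD D = 2 ^ t) (OD X)) ((SQ X).card : ℝ)
  have k3 := quot_mul (filter_subset (fun D => KD D = 2 ^ t) (OD (X / 2))) ((SQ X).card : ℝ)
  rw [tt_card H t X, Nat.cast_add, add_div, ← k2, ← k3]
  rfl

/-- the twists of the even half with trivial kernel are minimal -/
theorem mi_of_tt {D : ℤ} (hD : D ≠ 0) (h : Tt 0 D) : Mi D := by
  obtain ⟨k1, k2⟩ := h
  unfold s1 at k1
  unfold s2 at k2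
  have hB : (2 : ℤ) * D ^ 2 ≠ 0 := by positivity
  have e1 : (-2 : ℤ) * (-4 * D) = 8 * D := by ring
  have e2 : (-4 * D) ^ 2 - 4 * (2 * D ^ 2) = 8 * D ^ 2 := by ring
  have hC : (-4 * D) ^ 2 - 4 * (2 * D ^ 2) ≠ 0 := by rw [e2]; positivity
  have := triv_of_sel hB hC (by rw [k1]; norm_num) (by rw [e1, e2, k2]; norm_num)
  rw [e1, e2] at this
  exact this

end Pool.Agent.U79.GZ
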