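import Pool.Agent.U79.GZ.FIN4
import Pool.Agent.U79.GZ.FIN5
import Pool.Agent.U491.GZ.SQF
import Pool.Agent.U780.GZ.LIMK
import Pool.Agent.U394.GZ.BONK
import Pool.Agent.U962.GZ.LAWK
import Pool.Agent.U943.GZ.BOXK
import Pool.Agent.U200.GZ.KEYK
import Pool.Agent.U44.GZ.ASYK

/-!
# Project GZ (helper79): the parts of the exact law
-/

set_option autoImplicit false

namespace Pool.Agent.U79.GZ

theorem all3_of (ik : S_IK) (dsce : S_DSCE) (dscn : S_DSCN) : All3 where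
  toBase := base_of ik
  sqf := Pool.Agent.U491.GZ.t_SQF
  lim := Pool.Agent.U97.GZ.t_LIM
  lak := Pool.Agent.U962.GZ.LK.t_LAWK Pool.Agent.U780.GZ.t_LIMK Pool.Agent.U394.GZ.t_BONK
    Pool.Agent.U876.GZ.t_BON ik
  boxk := Pool.Agent.U943.GZ.t_BOXK
  keyk := Pool.Agent.U200.GZ.t_KEYK
  asyk := Pool.Agent.U44.GZ.t_ASYK
  dsce := dsce
  dscn := dscn

end Pool.Agent.U79.GZ
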