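import Pool.Agent.U79.GZ.Stm3

/-!
# Project GZ (helper79): fifth part, the limits are a probability distribution
-/

set_option autoImplicit false

namespace Pool.Agent.U79.GZ

/-- GZ-SUM: the identity of the Durfee square, `∑ q ^ (k ^ 2) / ((1 - q) ⋯ (1 - q ^ k)) ^ 2 = ∏ 1 / (1 - q ^ i)`
for `q = 1 / 2` (`2 ^ k (ak k) ^ 2 = q ^ (k ^ 2) / ((1 - q) ⋯ (1 - q ^ k)) ^ 2`). For example: the finite form is
the Vandermonde identity of the Gaussian binomial coefficients `∑_k q ^ (k ^ 2) [n, k] ^ 2 = [2 n, n]`
(induction), then `n → ∞` (dominated convergence); or: the number of the matrices of rank `n - k` over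
the field with two elements. -/
def S_SUM : Prop := HasSum et 1

end Pool.Agent.U79.GZ
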