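import Pool.Agent.U171.GE.CNV2
import Pool.Agent.U115.GE.Defs

/-!
# Project GZ (helper79): sixth part, the lower bound for `2 ^ rank · #Ш[2]`
-/

set_option autoImplicit false

open scoped Classical

namespace Pool.Agent.U79.GZ

open Pool.Agent.U115.GE (sel Qs)
open Pool.Agent.Y682 (gc wc)
open Pool.Agent.TH841.NF.D (rk Sha)

/-- GZ-CNV3: as `Pool.Agent.U171.GE.t_CNV2` (`Pool/Agent/U171/GE/CNV2.lean`), for the whole Selmer group: the
hypothesis `0 < d` there is only used for `LocI ℝ a b d`, which follows from `Qs ℝ (-2 * a) (a ^ 2 - 4 * b) d`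
by `loc_of_qs` as at the primes. Then choose representatives `T` of `SelSet (-2 a) (a² - 4 b)` modulo the
squarefree part of `a² - 4 b` (each class has at most two elements): `sel ≤ 2 #T`. -/
def S_CNV3 : Prop := ∀ (a b : ℤ), b ≠ 0 → a ^ 2 - 4 * b ≠ 0 → ¬ IsSquare (b : ℚ) →
  ¬ IsSquare ((a : ℚ) ^ 2 - 4 * b) → Finite {x : Sha (wc (a : ℚ) (b : ℚ)) // 2 • x = 0} →
  sel (-2 * a) (a ^ 2 - 4 * b) ≤ 2 * (2 ^ rk (wc (a : ℚ) (b : ℚ)) *
    Nat.card {x : Sha (wc (a : ℚ) (b : ℚ)) // 2 • x = 0})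

end Pool.Agent.U79.GZ
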