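import Pool.Agent.U79.GZ.FIN5
import Pool.Agent.U79.GZ.Stm5
import Pool.Agent.U79.GZ.Stm6

/-!
# Project GZ (helper79): the even half of the twists, the Tate-Shafarevich groups
-/

set_option autoImplicit false

open scoped Classical

namespace Pool.Agent.U79.GZ

open Finset hiding ext
open Filter
open Pool.Agent.U115.GE (sel Qs ELS SelSet)
open Pool.Agent.Y682 (gc wc)
open Pool.Agent.TH841.NF.D (rk Sha)
open Pool.Agent.U115.XP (fin_wc)

/-- the even half -/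
def Ev (D : ℤ) : Prop := (0 < D ∧ D % 2 = 1) ∨ (D < 0 ∧ D % 2 = 0)

theorem ev_odd {D : ℕ} (ho : D % 2 = 1) : Ev (D : ℤ) := Or.inl ⟨by omega, by omega⟩

theorem ev_even {D : ℕ} (ho : D % 2 = 1) : Ev (-2 * (D : ℤ)) := Or.inr ⟨by omega, by omega⟩

theorem sq_half {n : ℕ} (hn : Squarefree n) (h : n % 2 = 0) :
    n = 2 * (n / 2) ∧ (n / 2) % 2 = 1 ∧ Squarefree (n / 2) := by
  have hev : n = 2 * (n / 2) := by omega
  refine ⟨hev, ?_, hn.squarefree_of_dvd ⟨2, by omega⟩⟩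
  by_contra h1
  have : 2 * 2 ∣ n := by
    rw [hev]
    exact Nat.mul_dvd_mul_left 2 (by omega)
  have := hn 2 this
  rw [Nat.isUnit_iff] at this
  omega

/-- the members of the even half -/
theorem ev_set (P : ℤ → Prop) (X : ℕ) : ((SQ X).filter fun D => Ev D ∧ P D) =
    (((OD X).filter fun D : ℕ => P D).image fun D : ℕ => (D : ℤ)) ∪
    (((OD (X / 2)).filter fun D : ℕ => P (-2 * D)).image fun D : ℕ => -2 * (D : ℤ)) := by
  ext x
  rw [mem_union, mem_image, mem_image]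
  constructor
  · intro hx
    obtain ⟨hx1, hx5, hx2⟩ := mem_filter.1 hx
    obtain ⟨hx3, hx4⟩ := mem_filter.1 hx1
    have hle := mem_Icc.1 hx3
    have hn : Squarefree x.natAbs := Int.squarefree_natAbs.2 hx4
    rcases hx5 with ⟨h1, h2⟩ | ⟨h1, h2⟩
    · left
      have e : ((x.natAbs : ℕ) : ℤ) = x := by omega
      exact ⟨x.natAbs, mem_filter.2 ⟨mem_filter.2 ⟨mem_Icc.2 ⟨by omega, by omega⟩, hn, by omega⟩,
        by rw [e]; exact hx2⟩, e⟩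
    · right
      obtain ⟨hev, hm1, hms⟩ := sq_half hn (by omega)
      have e : -2 * ((x.natAbs / 2 : ℕ) : ℤ) = x := by omega
      exact ⟨x.natAbs / 2, mem_filter.2 ⟨mem_filter.2 ⟨mem_Icc.2 ⟨by omega, by omega⟩, hms, hm1⟩,
        by rw [e]; exact hx2⟩, e⟩
  · rintro (⟨D, hD, rfl⟩ | ⟨D, hD, rfl⟩)
    · obtain ⟨hD1, hD2⟩ := mem_filter.1 hD
      obtain ⟨hD3, hs, ho⟩ := mem_filter.1 hD1
      have hle := mem_Icc.1 hD3
      exact mem_filter.2 ⟨mem_filter.2 ⟨mem_Icc.2 ⟨by omega, by omega⟩,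
        Int.squarefree_natCast.2 hs⟩, ev_odd ho, hD2⟩
    · obtain ⟨hD1, hD2⟩ := mem_filter.1 hD
      obtain ⟨hD3, hs, ho⟩ := mem_filter.1 hD1
      have hle := mem_Icc.1 hD3
      have hX : 2 * (X / 2) ≤ X := Nat.mul_div_le X 2
      refine mem_filter.2 ⟨mem_filter.2 ⟨mem_Icc.2 ⟨by omega, by omega⟩, ?_⟩, ev_even ho, hD2⟩
      rw [← Int.squarefree_natAbs, Int.natAbs_mul, Int.natAbs_natCast]
      refine (Nat.squarefree_mul ?_).2 ⟨?_, hs⟩
      · exact Nat.coprime_two_left.2 (Nat.odd_iff.2 ho)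
      · exact Nat.prime_two.prime.squarefree

theorem ev_card (P : ℤ → Prop) (X : ℕ) : ((SQ X).filter fun D => Ev D ∧ P D).card =
    ((OD X).filter fun D : ℕ => P D).card + ((OD (X / 2)).filter fun D : ℕ => P (-2 * D)).card := by
  rw [ev_set P X, card_union_of_disjoint, card_image_of_injective _ Nat.cast_injective,
    card_image_of_injective _ fun D E h => ?_]
  · have h' : (-2 : ℤ) * D = -2 * E := h
    omega
  · rw [disjoint_left]
    intro x hx hy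
    obtain ⟨D, -, hD⟩ := mem_image.1 hx
    obtain ⟨E, hE, hE'⟩ := mem_image.1 hy
    have hE0 := (mem_Icc.1 (mem_filter.1 (mem_filter.1 hE).1).1).1
    omega

/-- exactly one half of the squarefree integers are in the even half -/
theorem ev_half (h : S_SQF) : Tendsto (fun X : ℕ => (((SQ X).filter Ev).card : ℝ) /
    ((SQ X).card : ℝ)) atTop (nhds (1 / 2)) := by
  obtain ⟨h3, h4⟩ := h
  have h5 := h3.add h4
  have e5 : (1 / 3 : ℝ) + 1 / 6 = 1 / 2 := by norm_num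
  rw [e5] at h5
  refine h5.congr fun X => ?_
  have e := ev_card (fun _ => True) X
  simp only [and_true, filter_true] at e
  have e' : ((SQ X).filter Ev).card = (OD X).card + (OD (X / 2)).card := e
  rw [e', Nat.cast_add, add_div]
  rfl

/-- the sizes of the two Selmer groups -/
theorem s_cases (H : All3) {D : ℤ} (hD : Squarefree D) : (Ev D → s1 D = s2 D) ∧
    (¬ Ev D → s1 D = 2 * s2 D ∨ s2 D = 2 * s1 D) := by
  have hn : Squarefree D.natAbs := Int.squarefree_natAbs.2 hD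
  have h0 : D ≠ 0 := hD.ne_zero
  constructor
  · rintro (⟨h1, h2⟩ | ⟨h1, h2⟩)
    · have e : ((D.natAbs : ℕ) : ℤ) = D := by omega
      obtain ⟨k1, k2⟩ := s_odd H hn (by omega)
      rw [e] at k1 k2
      rw [k1, k2]
    · obtain ⟨hev, hm1, hms⟩ := sq_half hn (by omega)
      have e : D = -2 * ((D.natAbs / 2 : ℕ) : ℤ) := by omega
      obtain ⟨k1, k2⟩ := s_odd H hms hm1
      rw [e, s1_neg2, s2_neg2, k1, k2]
  · intro h
    unfold Ev at h
    by_cases ho : D.natAbs % 2 = 1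
    · left
      have e : D = -((D.natAbs : ℕ) : ℤ) := by omega
      have k := s_neg H hn ho
      rw [← e] at k
      exact k
    · right
      obtain ⟨hev, hm1, hms⟩ := sq_half hn (by omega)
      have e : D = -2 * -((D.natAbs / 2 : ℕ) : ℤ) := by omega
      have k := s_neg H hms hm1
      rw [e, s1_neg2, s2_neg2]
      exact k

theorem tt_ev (H : All3) {t : ℕ} {D : ℤ} (hD : Squarefree D) : Tt t D ↔ Ev D ∧ s1 D = 2 ^ (t + 1) := by
  obtain ⟨h1, h2⟩ := s_cases H hD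
  obtain ⟨p1, p2⟩ := s_pos hD.ne_zero
  unfold Tt
  constructor
  · rintro ⟨k1, k2⟩
    refine ⟨?_, k1⟩
    by_contra h
    rcases h2 h with h3 | h3 <;> omega
  · rintro ⟨h, k1⟩
    exact ⟨k1, (h1 h) ▸ k1⟩

/-- `Ш[2]` and the rank -/
theorem bnd {D : ℤ} (hD : D ≠ 0) : Finite {x : Sha (gc (-4 * D) (2 * D ^ 2) ℚ) // 2 • x = 0} ∧
    4 * 2 ^ rk (gc (-4 * D) (2 * D ^ 2) ℚ) *
      Nat.card {x : Sha (gc (-4 * D) (2 * D ^ 2) ℚ) // 2 • x = 0} ≤ s1 D * s2 D := by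
  have hB : (2 : ℤ) * D ^ 2 ≠ 0 := by positivity
  have e1 : (-2 : ℤ) * (-4 * D) = 8 * D := by ring
  have e2 : (-4 * D) ^ 2 - 4 * (2 * D ^ 2) = 8 * D ^ 2 := by ring
  have hC : (-4 * D) ^ 2 - 4 * (2 * D ^ 2) ≠ 0 := by rw [e2]; positivity
  obtain ⟨hfin, hb⟩ := Pool.Agent.U796.GE.t_BND (-4 * D) (2 * D ^ 2) hB hC
  have e : gc (-4 * D) (2 * D ^ 2) ℚ = wc ((-4 * D : ℤ) : ℚ) ((2 * D ^ 2 : ℤ) : ℚ) := rfl
  rw [← e, e1, e2] at hb
  rw [← e] at hfin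
  exact ⟨hfin, hb⟩

theorem nsq2 {D : ℤ} (hD : D ≠ 0) : ¬ IsSquare ((2 * D ^ 2 : ℤ) : ℚ) := by
  rintro ⟨s, hs⟩
  have hDq : (D : ℚ) ≠ 0 := by exact_mod_cast hD
  apply nb2
  rw [← Rat.isSquare_intCast_iff]
  refine ⟨s / D, ?_⟩
  push_cast at hs ⊢
  rw [div_mul_div_comm, eq_div_iff (mul_ne_zero hDq hDq), ← hs]
  ring

theorem nsq8 {D : ℤ} (hD : D ≠ 0) :
    ¬ IsSquare ((((-4 * D : ℤ)) : ℚ) ^ 2 - 4 * ((2 * D ^ 2 : ℤ) : ℚ)) := by
  rintro ⟨s, hs⟩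
  have hDq : (D : ℚ) ≠ 0 := by exact_mod_cast hD
  apply nb2
  rw [← Rat.isSquare_intCast_iff]
  refine ⟨s / (2 * D), ?_⟩
  push_cast at hs ⊢
  rw [div_mul_div_comm, eq_div_iff (by positivity), ← hs]
  ring

/-- the lower bound -/
theorem low2 (hC : S_CNV3) {D : ℤ} (hD : D ≠ 0) : s2 D ≤ 2 * (2 ^ rk (gc (-4 * D) (2 * D ^ 2) ℚ) *
    Nat.card {x : Sha (gc (-4 * D) (2 * D ^ 2) ℚ) // 2 • x = 0}) := by
  have hB : (2 : ℤ) * D ^ 2 ≠ 0 := by positivity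
  have e1 : (-2 : ℤ) * (-4 * D) = 8 * D := by ring
  have e2 : (-4 * D) ^ 2 - 4 * (2 * D ^ 2) = 8 * D ^ 2 := by ring
  have hC' : (-4 * D) ^ 2 - 4 * (2 * D ^ 2) ≠ 0 := by rw [e2]; positivity
  have h := hC (-4 * D) (2 * D ^ 2) hB hC' (nsq2 hD) (nsq8 hD) (bnd hD).1
  rw [e1, e2] at h
  exact h

/-- minimal twists in the even half -/
theorem mi_iff (H : All3) (hC : S_CNV3) {D : ℤ} (hD : Squarefree D) (hE : Ev D) :
    (Finite (gc (-4 * D) (2 * D ^ 2) ℚ).toAffine.Point ∧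
      ∀ (n : ℕ) (x : Sha (gc (-4 * D) (2 * D ^ 2) ℚ)), 2 ^ n • x = 0 → x = 0) ↔ s1 D = 2 := by
  have h0 := hD.ne_zero
  have hB : (2 : ℤ) * D ^ 2 ≠ 0 := by positivity
  have e2 : (-4 * D) ^ 2 - 4 * (2 * D ^ 2) = 8 * D ^ 2 := by ring
  have hC' : (-4 * D) ^ 2 - 4 * (2 * D ^ 2) ≠ 0 := by rw [e2]; positivity
  constructor
  · rintro ⟨hf, hS⟩
    have hb0 : ((2 * D ^ 2 : ℤ) : ℚ) ≠ 0 := by exact_mod_cast hB
    have hc0 : ((-4 * D : ℤ) : ℚ) ^ 2 - 4 * ((2 * D ^ 2 : ℤ) : ℚ) ≠ 0 := by exact_mod_cast hC'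
    have hr : rk (gc (-4 * D) (2 * D ^ 2) ℚ) = 0 := (fin_wc ℚ _ _ hb0 hc0).2 hf
    have h4 : Nat.card {x : Sha (gc (-4 * D) (2 * D ^ 2) ℚ) // 2 • x = 0} = 1 := by
      rw [Nat.card_eq_one_iff_unique]
      refine ⟨⟨fun x y => ?_⟩, ⟨⟨0, smul_zero 2⟩⟩⟩
      apply Subtype.ext
      have hx := hS 1 x.1 (by rw [pow_one]; exact x.2)
      have hy := hS 1 y.1 (by rw [pow_one]; exact y.2)
      rw [hx, hy]
    have h5 := low2 hC h0
    rw [hr, h4] at h5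
    have h6 := (s_cases H hD).1 hE
    have h7 := (bnd h0).2
    rw [hr, h4, h6] at h7
    rw [h6]
    have h8 : s2 D ≤ 2 := by omega
    have h9 : 4 ≤ s2 D * s2 D := by omega
    by_contra h10
    have h11 : s2 D ≤ 1 := by omega
    nlinarith
  · intro h
    have h1 : Tt 0 D := ⟨h, ((s_cases H hD).1 hE) ▸ h⟩
    obtain ⟨-, -, -, h2, h3⟩ := mi_of_tt h0 h1
    exact ⟨h2, h3⟩

end Pool.Agent.U79.GZ
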