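import Pool.Agent.U79.GZ.FIN6
import Pool.Agent.U79.GZ.FIN7
import Pool.Agent.U979.GZ.IK
import Pool.Agent.U394.GZ.CNV3
import Pool.Agent.U780.GZ.SUM
import Pool.Agent.U263.GZ.DSCE

/-!
# Project GZ (helper79): all parts
-/

set_option autoImplicit false

namespace Pool.Agent.U79.GZ

theorem t_All : All := all_of Pool.Agent.U979.GZ.t_IK

theorem t_All3 (dscn : S_DSCN) : All3 :=
  all3_of Pool.Agent.U979.GZ.t_IK Pool.Agent.U263.GZE.t_DSCE dscn

end Pool.Agent.U79.GZ
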