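import Pool.Agent.U79.GZ.Stm

/-!
# Project GZ (helper79): third part, the exact distribution

The kernel of the matrix has `2 ^ t` elements for the proportion `2 ^ t · (ak t)² · eta`, the law of the
uniform random square matrices. All statements are the ones of `Stm` with `Gd` (the kernel is trivial)
replaced by `Kn = 2 ^ t` and the limit `eta` replaced by `et t`; so the proofs of the case `t = 0`
can be copied.
-/

set_option autoImplicit false
set_option linter.unusedVariables false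

open scoped Classical

namespace Pool.Agent.U79.GZ

open Finset hiding ext
open Filter
open Pool.Agent.Y703.CX (sm la jj XX eL zz kk S_SIE)
open Pool.Agent.Y703.CQ (nr sg prs HB S_EQ ext)
open Pool.Agent.U115.GD (S_MER S_CHE)
open Pool.Agent.U115.GE (sel Qs)
open Pool.Agent.U79.MO (SolA)
open Pool.Agent.U79.GY (Cfg Ok Hc Sp In Cl SS da db dl s4 Mod cfg Ind S_HAL1 S_DEN S_CFG CntP S_BIL)
open Pool.Agent.U255.GY (ff)

/-- the limit of the proportion of the kernels with `2 ^ t` elements -/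
noncomputable def et (t : ℕ) : ℝ := 2 ^ t * ak t ^ 2 * eta

/-- the coefficients -/
noncomputable def bk (t j : ℕ) : ℝ := (1 / 2 : ℝ) ^ (t * j) * ak j * ((1 / 2 : ℝ) ^ (t * (t - 1) / 2) * ak t)

/-- GZ-LIMK. Let `F z = ∑ (-1) ^ j z ^ j ak j` (absolutely convergent, `ak j ≤ 2 ^ (1 - j)`); then
`F z = (1 - z / 2) F (z / 2)` by comparison of coefficients (`ak (j - 1) = (2 ^ j - 1) ak j`), so
`F (2 ^ (-t)) = eta / ∏_{1 ≤ i ≤ t} (1 - 2 ^ (-i))`; the error is at most the first omitted term (alternating,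
decreasing). For `t = 0` this is `S_LIM` (proof in `Pool/Agent/U97/GZ/LIM0.lean`). -/
def S_LIMK : Prop := ∀ t K : ℕ, |∑ k ∈ range (K + 1), (-1 : ℝ) ^ k * bk t k - et t| ≤ (1 / 2 : ℝ) ^ K

/-- GZ-BONK: as `I_{t + j} (2 ^ n) = I_t (2 ^ n) · 2 ^ (t j) · I_j (2 ^ (n - t))` for `n ≥ t` (and both sides
vanish for `n < t`), and `I_t (2 ^ t) = 2 ^ (t (t - 1) / 2) / ak t`, this follows from `S_BON` for `n - t`. -/
def S_BONK : Prop := S_BON → ∀ t n K : ℕ,
  |(if n = t then (1 : ℝ) else 0) - ∑ k ∈ range (K + 1), (-1 : ℝ) ^ k * (bk t k * Ik (t + k) (2 ^ n))| ≤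
    bk t (K + 1) * Ik (t + (K + 1)) (2 ^ n)

/-- the bound for the error -/
noncomputable def ek (t K u j m n : ℕ) : ℝ :=
  4 * (1 / 2 : ℝ) ^ K + 2 ^ ((t + K + 2) ^ 2 + 2) * dd u j m n

/-- the law of the random completion -/
def S_LAK : Prop := ∀ (t K m n : ℕ) (U J : Type) [Fintype U] [Fintype J] [LinearOrder J]
    (U1 : Finset U) (J1 : Finset J) (A : U → U → ZMod 2) (B : U → J → ZMod 2)
    (C : J → U → ZMod 2) (e : J → J → ZMod 2) (f : U → ZMod 2) (g : J → ZMod 2),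
  Hy U1 J1 B C e m n →
  |((univ.filter fun α : prs J1 → ZMod 2 =>
      ns U1 J1 A B C (fun j l => ext α j l + e j l) f g = 2 ^ t).card : ℝ) / 2 ^ (prs J1).card -
        et t| ≤ ek t K (Fintype.card U) J1.card m n

/-- GZ-LAWK (template `Pool/Agent/U643/GZ/LAW.lean`; `bk t j ≤ 1`, `bk t (K + 1) ≤ (1 / 2) ^ K`; `S_BONK` is
used through its conclusion). -/
def S_LAWK : Prop := S_LIMK → S_BONK → S_BON → S_IK → S_LAK

/-- the number of the elements of the kernel -/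
noncomputable def Kn (G : Cfg) (γ : ℕ → ℕ → ZMod 2) (f : ℕ → ZMod 2) (S : Finset ℕ) : ℕ :=
  {x : ℕ → ZMod 2 | (∀ p, ¬ (p ∈ S ∧ Hc G p) → x p = 0) ∧ Sol G γ f S x}.ncard

/-- GZ-BOXK (template: the proof of `S_BOX` in `Pool/Agent/U796/GZ/BOX.lean`; the kernel has as many
elements as the block system has solutions). -/
def S_BOXK : Prop := S_EQ → S_LAK → ∀ (G : Cfg) (γ : ℕ → ℕ → ZMod 2) (Z : Finset ℤ)
  (f : ℕ → ZMod 2) (t K : ℕ) (ι : Type) [Fintype ι] [LinearOrder ι] (J1 : Finset ι)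
  (C : ι → Finset ℕ) (X : ι → ℕ) (κ : ℝ) (S₀ : Finset ℕ) (ρ : ι → ℕ), Ok G → Ga G γ Z →
  0 ≤ κ → (∀ i, (C i).card ≤ X i) → HB J1 C X κ → (∀ u ∈ S₀, u.Prime ∧ u ≠ 2) →
  (∀ i, ∀ p ∈ C i, p.Prime ∧ p ≠ 2 ∧ p ∉ S₀ ∧ (i ∈ J1 ↔ Hc G p) ∧ p % G.Q = ρ i) →
  (∀ i l, i ≠ l → Disjoint (C i) (C l)) → (∃ i, i ∉ J1) →
  |(((Fintype.piFinset C).filter fun p => Nd G Z S₀ (univ.image p) ∧
      Kn G γ f (S₀ ∪ univ.image p) = 2 ^ t).card : ℝ) -
      et t * (((Fintype.piFinset C).filter fun p => Nd G Z S₀ (univ.image p)).card : ℝ)| ≤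
    ek t K S₀.card J1.card G.Q (J1.filter fun i => ρ i % 4 = 3).card *
      (((Fintype.piFinset C).filter fun p => Nd G Z S₀ (univ.image p)).card : ℝ) +
    2 ^ ((2 * S₀.card + 1) * Fintype.card ι + (prs J1).card) * (κ * ∏ j, (X j : ℝ))

/-- the sum over the boxes -/
def KEYCK : Prop := ∃ C : ℝ, 1 ≤ C ∧
  ∀ (G : Cfg) (γ : ℕ → ℕ → ZMod 2) (Z : Finset ℤ) (f : ℕ → ZMod 2) (R : Finset ℕ)
    (t K X z H k V N : ℕ) (κ : ℝ), Ok G → Ga G γ Z → 1 ≤ X → 1 ≤ H → 1 ≤ z → 0 ≤ κ →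
  C ≤ κ ^ 12 * z → (H : ℝ) * Real.log X < N →
  |(((RR G R X z H k V).filter fun S => Nd G Z (sm z S) (la z S) ∧
      Kn G γ f S = 2 ^ t).card : ℝ) -
      et t * (((RR G R X z H k V).filter fun S => Nd G Z (sm z S) (la z S)).card : ℝ)| ≤
    (4 * (1 / 2 : ℝ) ^ K + 2 ^ ((t + K + 2) ^ 2 + 2) * ((1 + 2 ^ G.Q) * (1 / 2 : ℝ) ^ V)) *
      ((RR G R X z H k V).card : ℝ) +
    (((G.Q : ℝ) + 1) * (N + 1)) ^ k * (3 ^ (3 * k ^ 2) * κ) * (X * (1 + Real.log X))

/-- GZ-KEYK (as `S_KEY`, helper467). -/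
def S_KEYK : Prop := S_BIL → S_EQ → S_LAK → S_BOXK → KEYCK

/-- GZ-ASYK (as `S_ASY`, `Pool/Agent/U978/GZ/ASY.lean`; `0 ≤ et t ≤ 1`: `et 0 = eta`, and
`2 ^ t (ak t)² ≤ 2` for all `t`, as `ak t ≤ 1 / (2 ^ t - 1)` and `eta < 0.2888`). -/
def S_ASYK : Prop := KEYCK → CntP → S_SIE → S_BAD → S_FEW → Pool.Agent.U79.GY.S_FEW → S_MER →
  S_CHE → S_LOW → S_LIM → ∀ (G : Cfg) (γ : ℕ → ℕ → ZMod 2) (Z : Finset ℤ) (f : ℕ → ZMod 2)
    (R : Finset ℕ) (t : ℕ), Ok G → Ga G γ Z → HALP G Z → (∃ r ∈ G.A, r % 4 = 3) →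
  (∀ n : ℕ, Nat.Coprime n G.Q → (n * n) % G.Q ∈ R) →
  Tendsto (fun X : ℕ => (((SP G R X).filter fun S => Kn G γ f S = 2 ^ t).card : ℝ) /
    ((SP G R X).card : ℝ)) atTop (nhds (et t))

/-- GZ-DSCE: the two Selmer groups of the twists of `y² = x³ - 4 x² + 2 x` by the odd positive squarefree
`D` exactly (split primes: `1`, `7` modulo `8`; inert primes `3`, `5`; `gm 8 1 = 0`). The first: `d = u ∏ T`
with `u ∈ {1, 2}` (`d > 0` at the real place, no prime of `T` is inert; `u` is a unit times a power of `2`) and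
`x`, the indicator of `T`, in the kernel (`row` of `Pool/Agent/U255/GY/DSC.lean`, the symbols of `1` and `2` are
trivial at the split primes); conversely all these `d` are in the local images: at `2` the image is
generated by `-1` and `2` (modulo squares) for all odd `D`, at the inert primes of `D` the image is the
group of units, at the other odd primes `d` is a unit. The second (for `8 D`, `8 D²`): the image at `2` is
generated by `2`, so `d' = u' (-1)^m ∏ T'` with `u' ∈ {1, 2}`, `m` the number of the primes `7` modulo `8` in `T'`, and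
the rows at `p` for the dual isogeny (with `ff 8 8 p = ff (-4) 2 p + s4 p`) are, by quadratic reciprocity, the
COLUMNS of the matrix; a square matrix and its transpose have kernels of the same size. The existence of
the local points at good primes and at the inert primes as in the proof of `S_DSC` of project GY
(`Pool/Agent/U255/GY/DSC.lean`), the local points at `2`: `Pool/Agent/U962/GZ/Core.lean`, package EX1G. -/
def S_DSCE : Prop := S_CFG → ∀ D : ℕ, Squarefree D → D % 2 = 1 →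
  sel (-4 * D) (2 * D ^ 2) = 2 * Kn (cfg 2 8 8) (gm 8 fun _ => 1) (ff (-4) 2) D.primeFactors ∧
  sel (8 * D) (8 * D ^ 2) = 2 * Kn (cfg 2 8 8) (gm 8 fun _ => 1) (ff (-4) 2) D.primeFactors

end Pool.Agent.U79.GZ
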